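import Pool.Agent.Q218.Known.Geo
import Pool.Agent.Q218.AR2.Many
set_option autoImplicit false
set_option linter.unusedSectionVars false

/-!
# A simple polytope of dimension `n + 1` with `4 n + 2` facets: its edges
-/

namespace Pool.Agent.Q218.Known

open Set Pool.Agent.TH70.AR

variable {n : ℕ}

lemma face_subset (J : Set (Con n)) : face n J ⊆ P n := fun _ h => h.1

lemma convex_P (n : ℕ) : Convex ℝ (P n) := by
  rw [P_eq]; exact convex_polyh

lemma slack_comb (c : Con n) (p q : (Fin n → ℝ) × ℝ) {a b : ℝ} (hab : a + b = 1) :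
    slack c (a • p + b • q) = a * slack c p + b * slack c q := by
  unfold slack
  simp only [map_add, map_smul, smul_eq_mul]
  have : bb n c = a * bb n c + b * bb n c := by rw [← add_mul, hab, one_mul]
  linarith

lemma segment_face {J : Set (Con n)} {p q : (Fin n → ℝ) × ℝ} (hp : p ∈ face n J)
    (hq : q ∈ face n J) : segment ℝ p q ⊆ face n J := by
  rintro _ ⟨a, b, ha, hb, hab, rfl⟩
  refine ⟨convex_P n hp.1 hq.1 ha hb hab, fun c hc => ?_⟩
  rw [slack_comb c p q hab, hp.2 c hc, hq.2 c hc]
  ring

lemma vt_face {x : Fin n → Bool} {j : ℕ} (hj : j ≤ n + 1) (J : Set (Con n)) :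
    vt x j ∈ face n J ↔ ∀ c ∈ J, Tight x j c := by
  constructor
  · rintro ⟨-, h⟩ c hc
    exact (slack_vt x hj c).1 (h c hc)
  · intro h
    exact ⟨vt_mem x hj, fun c hc => (slack_vt x hj c).2 (h c hc)⟩

lemma pos_comb (b : Bool) {u v a : ℝ} :
    pos n b ((1 - a) * u + a * v) = (1 - a) * pos n b u + a * pos n b v := by
  cases b
  · simp [pos]
  · simp only [pos, if_true]
    ring

lemma eq_pos {b : Bool} {y e : ℝ} (h : dst n b y = e) : y = pos n b e := by
  rw [← h, pos_dst]

/-- the height is determined by the tight inequalities of one vertex which do not concern `k` -/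
lemma height_of {x : Fin n → Bool} {j : ℕ} (hj : j ≤ n + 1) {J : Set (Con n)}
    {p : (Fin n → ℝ) × ℝ} (hp : p ∈ face n J) (h0 : j = 0 → Sum.inl false ∈ J)
    (h1 : j = n + 1 → Sum.inl true ∈ J)
    (h2 : ∀ i : Fin n, j = i + 1 → (Sum.inr (i, x i, false) ∈ J ∧ Sum.inr (i, x i, true) ∈ J)) :
    p.2 = hgt x j := by
  rcases cases_j hj with h | ⟨i, h⟩ | h
  · have := hp.2 _ (h0 h)
    rw [slack_bot] at this
    rw [this, h, hgt_zero]
  · obtain ⟨h3, h4⟩ := h2 i h
    have h5 := hp.2 _ h3
    have h6 := hp.2 _ h4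
    rw [slack_lo] at h5
    rw [slack_up, h5] at h6
    rw [h, hgt_mid]
    linarith
  · have := hp.2 _ (h1 h)
    rw [slack_top] at this
    rw [h, hgt_top]
    linarith

lemma face_tight (x : Fin n → Bool) {j : ℕ} (hj : j ≤ n + 1) :
    face n {c | Tight x j c} = {vt x j} := by
  apply Set.Subset.antisymm
  · intro p hp
    have ht : p.2 = hgt x j := height_of hj hp (fun h => h) (fun h => h)
      (fun i h => ⟨⟨rfl, h.le⟩, ⟨rfl, h.ge⟩⟩)
    rw [mem_singleton_iff]
    ext i
    · rcases Nat.le_total j (i + 1) with h | h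
      · have h1 := hp.2 (Sum.inr (i, x i, false)) ⟨rfl, h⟩
        rw [slack_lo] at h1
        show _ = pos n (x i) (off x j i)
        rw [off_lo x i h]
        exact eq_pos h1
      · have h1 := hp.2 (Sum.inr (i, x i, true)) ⟨rfl, h⟩
        rw [slack_up, ht] at h1
        show _ = pos n (x i) (off x j i)
        rw [off_up x hj i h]
        exact eq_pos (by linarith)
    · exact ht
  · rw [singleton_subset_iff, vt_face hj]
    exact fun c hc => hc

lemma vt_extreme (x : Fin n → Bool) {j : ℕ} (hj : j ≤ n + 1) :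
    vt x j ∈ (P n).extremePoints ℝ := by
  have h := face_tight x hj
  rw [face_eq] at h
  rw [P_eq]
  exact extreme_of_fc h

lemma hgt_le_lev (x : Fin n → Bool) {j : ℕ} (i : Fin n) (h : j ≤ i + 1) :
    hgt x j ≤ lev i (x i) := by
  rcases Nat.lt_or_ge j (i + 1) with h1 | h1
  · exact (hgt_lt x i h1).le
  · have : j = i + 1 := by omega
    rw [this, hgt_mid]

lemma lev_le_hgt (x : Fin n → Bool) {j : ℕ} (hj : j ≤ n + 1) (i : Fin n) (h : i + 1 ≤ j) :
    lev i (x i) ≤ hgt x j := by
  rcases Nat.lt_or_ge (i + 1) j with h1 | h1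
  · exact (lt_hgt x hj i h1).le
  · have : j = i + 1 := by omega
    rw [this, hgt_mid]

/-- vertical edges -/
lemma face_vert (x : Fin n → Bool) {j : ℕ} (hj : j ≤ n) :
    face n {c | Tight x j c ∧ Tight x (j + 1) c} = segment ℝ (vt x j) (vt x (j + 1)) := by
  apply Set.Subset.antisymm
  · intro p hp
    have hup : ∀ i : Fin n, i + 1 ≤ j → dst n (x i) (p.1 i) = p.2 - lev i (x i) := fun i hi => by
      have h1 := hp.2 (Sum.inr (i, x i, true)) ⟨⟨rfl, hi⟩, ⟨rfl, by omega⟩⟩
      rw [slack_up] at h1
      linarith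
    have hlo : ∀ i : Fin n, j + 1 ≤ i + 1 → dst n (x i) (p.1 i) = 0 := fun i hi => by
      have h1 := hp.2 (Sum.inr (i, x i, false)) ⟨⟨rfl, by omega⟩, ⟨rfl, hi⟩⟩
      rwa [slack_lo] at h1
    have hmem := mem_P.1 hp.1
    have h1 : hgt x j ≤ p.2 := by
      rcases Nat.eq_zero_or_pos j with h | h
      · subst h; rw [hgt_zero]; exact hmem.1
      · have h2 := hup ⟨j - 1, by omega⟩ (by simp; omega)
        have h3 := (hmem.2.2 ⟨j - 1, by omega⟩ (x ⟨j - 1, by omega⟩)).1
        have h4 := hgt_mid x ⟨j - 1, by omega⟩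
        simp only [Nat.sub_add_cancel h] at h4
        rw [h4]
        linarith
    have h2 : p.2 ≤ hgt x (j + 1) := by
      rcases Nat.lt_or_ge j n with h | h
      · have h2 := hlo ⟨j, h⟩ (by simp)
        have h3 := (hmem.2.2 ⟨j, h⟩ (x ⟨j, h⟩)).2
        have h4 := hgt_mid x ⟨j, h⟩
        simp only at h4
        rw [h4]
        linarith
      · have : j = n := by omega
        rw [this, hgt_top]
        exact hmem.2.1
    have h3 := hgt_strict x hj
    have h3' : hgt x (j + 1) - hgt x j ≠ 0 := by linarith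
    set a := (p.2 - hgt x j) / (hgt x (j + 1) - hgt x j) with ha
    have ha' : (1 - a) * hgt x j + a * hgt x (j + 1) = p.2 := by
      have : a * (hgt x (j + 1) - hgt x j) = p.2 - hgt x j := by
        rw [ha, div_mul_cancel₀ _ h3']
      linarith
    have ha0 : 0 ≤ a := div_nonneg (by linarith) (by linarith)
    have ha1 : a ≤ 1 := (div_le_one (by linarith)).2 (by linarith)
    refine ⟨1 - a, a, by linarith, ha0, by ring, ?_⟩
    ext i
    · simp only [Prod.fst_add, Prod.smul_fst, Pi.add_apply, Pi.smul_apply, smul_eq_mul]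
      show (1 - a) * pos n (x i) (off x j i) + a * pos n (x i) (off x (j + 1) i) = _
      rw [← pos_comb]
      symm
      apply eq_pos
      rcases Nat.lt_or_ge i j with h | h
      · rw [hup i (by omega), off_up x (by omega) i (by omega), off_up x (by omega) i (by omega)]
        linarith
      · rw [hlo i (by omega), off_lo x i (by omega), off_lo x i (by omega)]
        ring
    · exact ha'
  · apply segment_face
    · rw [vt_face (by omega)]
      exact fun c hc => hc.1
    · rw [vt_face (by omega)]
      exact fun c hc => hc.2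

lemma hgt_flip (x : Fin n → Bool) {j : ℕ} {k : Fin n} (h : (k : ℕ) + 1 ≠ j) :
    hgt (flip x k) j = hgt x j := by
  unfold hgt
  split_ifs with h1 h2
  · rfl
  · have : (⟨j - 1, h2⟩ : Fin n) ≠ k := by
      intro h3
      apply h
      rw [← h3]
      simp
      omega
    rw [flip_of_ne x this]
  · rfl

lemma flip_ne (x : Fin n → Bool) (k : Fin n) : flip x k ≠ x := by
  intro h
  have := congrFun h k
  rw [flip_self] at this
  cases hx : x k <;> rw [hx] at this <;> simp at this

/-- horizontal edges -/
lemma face_hor (x : Fin n → Bool) {j : ℕ} (hj : j ≤ n + 1) {k : Fin n} (hk : (k : ℕ) + 1 ≠ j) :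
    face n {c | Tight x j c ∧ Tight (flip x k) j c} =
      segment ℝ (vt x j) (vt (flip x k) j) := by
  have hh := hgt_flip x hk
  apply Set.Subset.antisymm
  · intro p hp
    have ht : p.2 = hgt x j := height_of hj hp (fun h => ⟨h, h⟩) (fun h => ⟨h, h⟩)
      (fun i h => by
        have hik : i ≠ k := by rintro rfl; exact hk h.symm
        have := flip_of_ne x hik
        exact ⟨⟨⟨rfl, h.le⟩, ⟨this, h.le⟩⟩, ⟨⟨rfl, h.ge⟩, ⟨this, h.ge⟩⟩⟩)
    have hother : ∀ i, i ≠ k → dst n (x i) (p.1 i) = off x j i := by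
      intro i hik
      have h0 := flip_of_ne x hik
      rcases Nat.le_total j (i + 1) with h | h
      · have h1 := hp.2 (Sum.inr (i, x i, false)) ⟨⟨rfl, h⟩, ⟨h0, h⟩⟩
        rw [slack_lo] at h1
        rw [off_lo x i h, h1]
      · have h1 := hp.2 (Sum.inr (i, x i, true)) ⟨⟨rfl, h⟩, ⟨h0, h⟩⟩
        rw [slack_up, ht] at h1
        rw [off_up x hj i h]
        linarith
    have hmem := mem_P.1 hp.1
    set e0 := off x j k with he0
    set e1 := off (flip x k) j k with he1
    set d := dst n (x k) (p.1 k) with hd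
    have hd0 : e0 ≤ d := by
      rw [he0, off, ← ht]
      exact max_le (hmem.2.2 k (x k)).1 (hmem.2.2 k (x k)).2
    have hd1 : e1 ≤ 4 * n + 4 - d := by
      have h1 := hmem.2.2 k (!(x k))
      rw [dst_not] at h1
      rw [he1, off, hh, ← ht, flip_self]
      exact max_le h1.1 h1.2
    have he0' : e0 ≤ 2 * n := off_le x hj k
    have he1' : e1 ≤ 2 * n := off_le _ hj k
    have hpos : 0 < 4 * (n : ℝ) + 4 - e1 - e0 := by linarith
    set a := (d - e0) / (4 * n + 4 - e1 - e0) with ha
    have ha' : a * (4 * n + 4 - e1 - e0) = d - e0 := by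
      rw [ha, div_mul_cancel₀ _ hpos.ne']
    have ha0 : 0 ≤ a := div_nonneg (by linarith) hpos.le
    have ha1 : a ≤ 1 := (div_le_one hpos).2 (by linarith)
    refine ⟨1 - a, a, by linarith, ha0, by ring, ?_⟩
    ext i
    · simp only [Prod.fst_add, Prod.smul_fst, Pi.add_apply, Pi.smul_apply, smul_eq_mul]
      by_cases hik : i = k
      · subst hik
        have h1 : (vt (flip x i) j).1 i = pos n (x i) (4 * n + 4 - e1) := by
          show pos n (flip x i i) (off (flip x i) j i) = _
          rw [flip_self]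
          cases x i <;> simp [pos, ← he1]
        rw [h1]
        show (1 - a) * pos n (x i) e0 + a * pos n (x i) (4 * n + 4 - e1) = _
        rw [← pos_comb]
        symm
        apply eq_pos
        rw [← hd]
        linarith
      · have h1 : (vt (flip x k) j).1 i = (vt x j).1 i := by
          show pos n (flip x k i) (off (flip x k) j i) = pos n (x i) (off x j i)
          rw [off, off, hh, flip_of_ne x hik]
        rw [h1]
        have h2 : (vt x j).1 i = p.1 i := by
          symm
          exact eq_pos (hother i hik)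
        rw [h2]
        ring
    · show (1 - a) * hgt x j + a * hgt (flip x k) j = p.2
      rw [hh, ht]
      ring
  · apply segment_face
    · rw [vt_face hj]
      exact fun c hc => hc.1
    · rw [vt_face hj]
      exact fun c hc => hc.2

/-! ### All vertices -/

lemma exists_between (x : Fin n → Bool) {t : ℝ} (h0 : 0 ≤ t) : ∀ m : ℕ, m ≤ n →
    t ≤ hgt x (m + 1) → ∃ j ≤ m, hgt x j ≤ t ∧ t ≤ hgt x (j + 1) := by
  intro m
  induction m with
  | zero => intro _ h; exact ⟨0, le_rfl, by rw [hgt_zero]; exact h0, h⟩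
  | succ m ih =>
    intro hm h
    rcases le_total t (hgt x (m + 1)) with h1 | h1
    · obtain ⟨j, hj, h2⟩ := ih (by omega) h1
      exact ⟨j, by omega, h2⟩
    · exact ⟨m + 1, le_rfl, h1, h⟩

lemma extreme_vt {p : (Fin n → ℝ) × ℝ} (hp : p ∈ (P n).extremePoints ℝ) :
    ∃ (x : Fin n → Bool) (j : ℕ), j ≤ n + 1 ∧ p = vt x j := by
  classical
  have hpP : p ∈ P n := extremePoints_subset hp
  have hmem := mem_P.1 hpP
  have hmax : ∀ (i : Fin n) (b : Bool), max 0 (p.2 - lev i b) ≤ dst n b (p.1 i) := fun i b =>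
    max_le (hmem.2.2 i b).1 (hmem.2.2 i b).2
  -- every coordinate is at one of its ends
  have hend : ∀ i : Fin n, ∃ b, dst n b (p.1 i) = max 0 (p.2 - lev i b) := by
    intro i
    by_contra hcon
    push Not at hcon
    have h1 : ∀ b, max 0 (p.2 - lev i b) < dst n b (p.1 i) := fun b =>
      lt_of_le_of_ne (hmax i b) (hcon b).symm
    set q : Bool → (Fin n → ℝ) × ℝ := fun b =>
      (Function.update p.1 i (pos n b (max 0 (p.2 - lev i b))), p.2) with hq
    have hqP : ∀ b, q b ∈ P n := by
      intro b
      rw [mem_P]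
      refine ⟨hmem.1, hmem.2.1, fun i' b' => ?_⟩
      by_cases hi : i' = i
      · subst hi
        simp only [hq, Function.update_self]
        by_cases hb : b' = b
        · subst hb
          rw [dst_pos]
          exact ⟨le_max_left _ _, le_max_right _ _⟩
        · have hb' : b' = !b := by cases b <;> cases b' <;> simp_all
          subst hb'
          rw [dst_not, dst_pos]
          have h2 := h1 b
          have h3 := h1 (!b)
          rw [dst_not] at h3
          have h4 : max 0 (p.2 - lev i' (!b)) < 4 * n + 4 - max 0 (p.2 - lev i' b) := by linarith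
          exact ⟨(le_max_left _ _).trans h4.le, (le_max_right _ _).trans h4.le⟩
      · simp only [hq, Function.update_of_ne hi]
        exact hmem.2.2 i' b'
    set e0 := max 0 (p.2 - lev i false) with he0
    set e1 := max 0 (p.2 - lev i true) with he1
    have h2 := h1 false
    have h3 := h1 true
    rw [← he0] at h2
    rw [← he1] at h3
    simp only [dst, Bool.false_eq_true, if_false, if_true] at h2 h3
    have hpos : 0 < 4 * (n : ℝ) + 4 - e1 - e0 := by linarith
    have hseg : p ∈ segment ℝ (q false) (q true) := by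
      set a := (p.1 i - e0) / (4 * n + 4 - e1 - e0) with ha
      have ha' : a * (4 * n + 4 - e1 - e0) = p.1 i - e0 := by
        rw [ha, div_mul_cancel₀ _ hpos.ne']
      refine ⟨1 - a, a, ?_, div_nonneg (by linarith) hpos.le, by ring, ?_⟩
      · have : a ≤ 1 := (div_le_one hpos).2 (by linarith)
        linarith
      · ext i'
        · simp only [Prod.fst_add, Prod.smul_fst, Pi.add_apply, Pi.smul_apply, smul_eq_mul]
          by_cases hi : i' = i
          · subst hi
            simp only [hq, Function.update_self, ← he0, ← he1, pos, Bool.false_eq_true, if_false,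
              if_true]
            linarith
          · simp only [hq, Function.update_of_ne hi]
            ring
        · simp only [Prod.snd_add, Prod.smul_snd, smul_eq_mul, hq]
          ring
    rcases extreme_segment hp (hqP false) (hqP true) hseg with h | h
    · have h4 : p.1 i = e0 := by
        have := congrFun (congrArg Prod.fst h) i
        simpa [hq, pos] using this
      linarith
    · have h4 : p.1 i = 4 * n + 4 - e1 := by
        have := congrFun (congrArg Prod.fst h) i
        simpa [hq, pos] using this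
      linarith
  choose x hx using hend
  obtain ⟨j, hj, h1, h2⟩ := exists_between x hmem.1 n le_rfl (by rw [hgt_top]; exact hmem.2.1)
  have hface : p ∈ face n {c | Tight x j c ∧ Tight x (j + 1) c} := by
    refine ⟨hpP, ?_⟩
    rintro ((_ | _) | ⟨i, b, (_ | _)⟩) ⟨h3, h4⟩
    · exact absurd h4 (by simp [Tight])
    · have h3' : j = n + 1 := h3
      omega
    · obtain ⟨rfl, h5⟩ : x i = b ∧ j + 1 ≤ i + 1 := h4
      rw [slack_lo, hx i]
      apply max_eq_left
      linarith [hgt_le_lev x (j := j + 1) i h5]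
    · obtain ⟨rfl, h5⟩ : x i = b ∧ i + 1 ≤ j := h3
      rw [slack_up, hx i, max_eq_right]
      · ring
      · linarith [lev_le_hgt x (by omega) i h5]
  rw [face_vert x hj] at hface
  rcases extreme_segment hp (vt_mem x (by omega)) (vt_mem x (by omega)) hface with h | h
  · exact ⟨x, j, by omega, h⟩
  · exact ⟨x, j + 1, by omega, h⟩

/-! ### All edges -/

/-- `p` and `q` are joined by an edge of `A` -/
def Adj {E : Type*} [AddCommGroup E] [Module ℝ E] [TopologicalSpace E] (A : Set E) (p q : E) :
    Prop :=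
  p ≠ q ∧ p ∈ A.extremePoints ℝ ∧ q ∈ A.extremePoints ℝ ∧ IsExposed ℝ A (segment ℝ p q)

/-- adjacency in terms of labels -/
def CAdj (x : Fin n → Bool) (j : ℕ) (y : Fin n → Bool) (k : ℕ) : Prop :=
  (y = x ∧ (k = j + 1 ∨ j = k + 1)) ∨ (k = j ∧ ∃ i : Fin n, (i : ℕ) + 1 ≠ j ∧ y = flip x i)

lemma Adj.symm {p q : (Fin n → ℝ) × ℝ} (h : Adj (P n) p q) : Adj (P n) q p :=
  ⟨h.1.symm, h.2.2.1, h.2.1, by rw [segment_symm]; exact h.2.2.2⟩

lemma CAdj.symm {x y : Fin n → Bool} {j k : ℕ} (h : CAdj x j y k) : CAdj y k x j := by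
  rcases h with ⟨rfl, h⟩ | ⟨rfl, i, h, rfl⟩
  · exact Or.inl ⟨rfl, h.symm⟩
  · exact Or.inr ⟨rfl, i, h, (flip_flip x i).symm⟩

lemma adj_vert (x : Fin n → Bool) {j : ℕ} (hj : j ≤ n) : Adj (P n) (vt x j) (vt x (j + 1)) := by
  refine ⟨fun h => ?_, vt_extreme x (by omega), vt_extreme x (by omega), ?_⟩
  · have := (vt_inj (by omega) (by omega) h).2
    omega
  · rw [← face_vert x hj]
    exact exposed_face _

lemma adj_hor (x : Fin n → Bool) {j : ℕ} (hj : j ≤ n + 1) {k : Fin n} (hk : (k : ℕ) + 1 ≠ j) :
    Adj (P n) (vt x j) (vt (flip x k) j) := by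
  refine ⟨fun h => ?_, vt_extreme x hj, vt_extreme _ hj, ?_⟩
  · exact flip_ne x k (vt_inj hj hj h).1.symm
  · rw [← face_hor x hj hk]
    exact exposed_face _

/-- an edge contains no third vertex -/
lemma no_third {x y : Fin n → Bool} {j k : ℕ} (hj : j ≤ n + 1) (hk : k ≤ n + 1)
    (h : Adj (P n) (vt x j) (vt y k)) {z : Fin n → Bool} {l : ℕ} (hl : l ≤ n + 1)
    (hz : ∀ c, Tight x j c → Tight y k c → Tight z l c) :
    (z = x ∧ l = j) ∨ (z = y ∧ l = k) := by
  obtain ⟨J, hJ⟩ := exists_face h.2.2.2 ⟨_, left_mem_segment ℝ _ _⟩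
  have h1 : vt x j ∈ face n J := by rw [← hJ]; exact left_mem_segment ℝ _ _
  have h2 : vt y k ∈ face n J := by rw [← hJ]; exact right_mem_segment ℝ _ _
  rw [vt_face hj] at h1
  rw [vt_face hk] at h2
  have h3 : vt z l ∈ face n J := (vt_face hl J).2 fun c hc => hz c (h1 c hc) (h2 c hc)
  rw [← hJ] at h3
  rcases extreme_segment (vt_extreme z hl) (vt_mem x hj) (vt_mem y hk) h3 with h4 | h4
  · exact Or.inl (vt_inj hl hj h4)
  · exact Or.inr (vt_inj hl hk h4)

lemma cadj_of_adj_le {x y : Fin n → Bool} {j k : ℕ} (hj : j ≤ n + 1) (hk : k ≤ n + 1)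
    (hjk : j ≤ k) (h : Adj (P n) (vt x j) (vt y k)) : CAdj x j y k := by
  have hthird := fun {z} {l} => no_third hj hk h (z := z) (l := l)
  by_cases hxy : y = x
  · subst hxy
    left
    refine ⟨rfl, Or.inl ?_⟩
    have hne : j ≠ k := by
      rintro rfl
      exact h.1 rfl
    by_contra hcon
    have := hthird (z := y) (l := j + 1) (by omega) (by
      rintro ((_ | _) | ⟨i, b, (_ | _)⟩) h1 h2
      · have h2' : k = 0 := h2
        omega
      · have h1' : j = n + 1 := h1
        omega
      · obtain ⟨h3, h4⟩ : y i = b ∧ k ≤ i + 1 := h2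
        exact ⟨h3, by omega⟩
      · obtain ⟨h3, h4⟩ : y i = b ∧ i + 1 ≤ j := h1
        exact ⟨h3, by omega⟩)
    omega
  · rcases Nat.lt_or_ge j k with hlt | hge
    · exfalso
      rcases hthird (z := x) (l := j + 1) (by omega) (by
        rintro ((_ | _) | ⟨i, b, (_ | _)⟩) h1 h2
        · have h2' : k = 0 := h2
          omega
        · have h1' : j = n + 1 := h1
          omega
        · obtain ⟨h3, h4⟩ : y i = b ∧ k ≤ i + 1 := h2
          exact ⟨h1.1, by omega⟩
        · obtain ⟨h3, h4⟩ : x i = b ∧ i + 1 ≤ j := h1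
          exact ⟨h3, by omega⟩) with h3 | h3
      · omega
      · exact hxy h3.1.symm
    · have hjk' : k = j := by omega
      subst hjk'
      right
      refine ⟨rfl, ?_⟩
      -- the differing coordinates
      by_cases hd : ∃ i : Fin n, x i ≠ y i ∧ (i : ℕ) + 1 ≠ k
      · obtain ⟨i, hi, hik⟩ := hd
        refine ⟨i, hik, ?_⟩
        rcases hthird (z := flip x i) (l := k) hj (by
          rintro ((_ | _) | ⟨i', b, (_ | _)⟩) h1 h2
          · exact h1
          · exact h1
          · have hne : i' ≠ i := by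
              rintro rfl
              exact hi (h1.1.trans h2.1.symm)
            exact ⟨by rw [flip_of_ne x hne]; exact h1.1, h1.2⟩
          · have hne : i' ≠ i := by
              rintro rfl
              exact hi (h1.1.trans h2.1.symm)
            exact ⟨by rw [flip_of_ne x hne]; exact h1.1, h1.2⟩) with h3 | h3
        · exact absurd h3.1 (flip_ne x i)
        · exact h3.1.symm
      · push Not at hd
        exfalso
        obtain ⟨i, hi⟩ : ∃ i, x i ≠ y i := by
          by_contra hcon
          push Not at hcon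
          exact hxy (funext fun i => (hcon i).symm)
        have hik := hd i hi
        have hi2 := i.2
        rcases hthird (z := x) (l := k + 1) (by omega) (by
          rintro ((_ | _) | ⟨i', b, (_ | _)⟩) h1 h2
          · have h2' : k = 0 := h2
            omega
          · have h1' : k = n + 1 := h1
            omega
          · obtain ⟨h3, h4⟩ : x i' = b ∧ k ≤ i' + 1 := h1
            have hne : i' ≠ i := by
              rintro rfl
              exact hi (h3.trans h2.1.symm)
            have : (i' : ℕ) ≠ i := fun h => hne (Fin.ext h)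
            exact ⟨h3, by omega⟩
          · obtain ⟨h3, h4⟩ : x i' = b ∧ i' + 1 ≤ k := h1
            exact ⟨h3, by omega⟩) with h3 | h3
        · omega
        · omega

lemma adj_iff {x y : Fin n → Bool} {j k : ℕ} (hj : j ≤ n + 1) (hk : k ≤ n + 1) :
    Adj (P n) (vt x j) (vt y k) ↔ CAdj x j y k := by
  constructor
  · intro h
    rcases Nat.le_total j k with h1 | h1
    · exact cadj_of_adj_le hj hk h1 h
    · exact (cadj_of_adj_le hk hj h1 h.symm).symm
  · rintro (⟨rfl, rfl | rfl⟩ | ⟨rfl, i, h, rfl⟩)
    · exact adj_vert y (by omega)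
    · exact (adj_vert y (by omega)).symm
    · exact adj_hor x hj h

end Pool.Agent.Q218.Known
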