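import Mathlib
set_option autoImplicit false
set_option linter.unusedSectionVars false

/-!
# Exposed faces of a polyhedron given by finitely many inequalities
-/

namespace Pool.Agent.Q218.Known

open Set

variable {E : Type*} [AddCommGroup E] [Module ℝ E] [TopologicalSpace E]
  [IsTopologicalAddGroup E] [ContinuousSMul ℝ E] {ι : Type*} [Fintype ι]

/-- the polyhedron of the inequalities `L i p ≤ β i` -/
def polyh (L : ι → (E →L[ℝ] ℝ)) (β : ι → ℝ) : Set E := {p | ∀ i, L i p ≤ β i}

/-- the face on which the inequalities in `J` are tight -/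
def fc (L : ι → (E →L[ℝ] ℝ)) (β : ι → ℝ) (J : Set ι) : Set E :=
  {p | p ∈ polyh L β ∧ ∀ i ∈ J, L i p = β i}

variable {L : ι → (E →L[ℝ] ℝ)} {β : ι → ℝ}

lemma exposed_fc (J : Set ι) : IsExposed ℝ (polyh L β) (fc L β J) := by
  classical
  rintro ⟨p₀, hp₀, hp₀J⟩
  refine ⟨∑ i ∈ Finset.univ.filter (· ∈ J), L i, ?_⟩
  have happ : ∀ p : E, (∑ i ∈ Finset.univ.filter (· ∈ J), L i) p =
      ∑ i ∈ Finset.univ.filter (· ∈ J), L i p := fun p => by
    simp
  ext p
  simp only [Set.mem_ofPred_eq]
  constructor
  · rintro ⟨hp, hpJ⟩
    refine ⟨hp, fun q hq => ?_⟩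
    rw [happ, happ]
    apply Finset.sum_le_sum
    intro i hi
    rw [hpJ i (Finset.mem_filter.1 hi).2]
    exact hq i
  · rintro ⟨hp, hq⟩
    refine ⟨hp, fun i hi => ?_⟩
    have h1 := hq p₀ hp₀
    rw [happ, happ] at h1
    have h2 : ∀ i ∈ Finset.univ.filter (· ∈ J), L i p ≤ L i p₀ := fun i hi => by
      rw [hp₀J i (Finset.mem_filter.1 hi).2]
      exact hp i
    have h3 := (Finset.sum_eq_sum_iff_of_le h2).1 (le_antisymm (Finset.sum_le_sum h2) h1) i
      (Finset.mem_filter.2 ⟨Finset.mem_univ _, hi⟩)
    rw [h3, hp₀J i hi]

lemma convex_polyh : Convex ℝ (polyh L β) := by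
  intro p hp q hq a b ha hb hab i
  have h1 := mul_le_mul_of_nonneg_left (hp i) ha
  have h2 := mul_le_mul_of_nonneg_left (hq i) hb
  have h3 : a * β i + b * β i = β i := by rw [← add_mul, hab, one_mul]
  simp only [map_add, map_smul, smul_eq_mul]
  linarith

/-- Every nonempty exposed face is given by tight inequalities. -/
lemma exists_fc {F : Set E} (hF : IsExposed ℝ (polyh L β) F) (hne : F.Nonempty) :
    ∃ J : Set ι, F = fc L β J := by
  classical
  obtain ⟨l, hl⟩ := hF hne
  set J : Set ι := {i | ∀ p ∈ F, L i p = β i} with hJ
  refine ⟨J, ?_⟩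
  have hFP : F ⊆ polyh L β := by
    intro p hp
    rw [hl] at hp
    exact hp.1
  -- a point of the face where all the other inequalities are strict
  have hpt : ∀ S : Finset ι, ∃ q ∈ F, ∀ i ∈ S, i ∉ J → L i q < β i := by
    intro S
    induction S using Finset.induction_on with
    | empty => obtain ⟨q, hq⟩ := hne; exact ⟨q, hq, by simp⟩
    | insert j S hj ih =>
      obtain ⟨q, hq, hqS⟩ := ih
      by_cases hjJ : j ∈ J
      · refine ⟨q, hq, fun i hi hiJ => ?_⟩
        rcases Finset.mem_insert.1 hi with rfl | hi
        · exact absurd hjJ hiJ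
        · exact hqS i hi hiJ
      · have : ∃ r ∈ F, L j r ≠ β j := by
          by_contra hcon
          push Not at hcon
          exact hjJ hcon
        obtain ⟨r, hr, hrj⟩ := this
        have hrj' : L j r < β j := lt_of_le_of_ne (hFP hr j) hrj
        refine ⟨(1 / 2 : ℝ) • q + (1 / 2 : ℝ) • r, ?_, ?_⟩
        · rw [hl] at hq hr ⊢
          refine ⟨convex_polyh hq.1 hr.1 (by norm_num) (by norm_num) (by norm_num),
            fun y hy => ?_⟩
          have h1 := hq.2 y hy
          have h2 := hr.2 y hy
          simp only [map_add, map_smul, smul_eq_mul]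
          linarith
        · intro i hi hiJ
          simp only [map_add, map_smul, smul_eq_mul]
          rcases Finset.mem_insert.1 hi with rfl | hi
          · have := hFP hq i
            linarith
          · have h1 := hqS i hi hiJ
            have h2 := hFP hr i
            linarith
  obtain ⟨q, hq, hqs⟩ := hpt Finset.univ
  apply Set.Subset.antisymm
  · intro p hp
    exact ⟨hFP hp, fun i hi => hi p hp⟩
  · rintro p ⟨hp, hpJ⟩
    -- move from `q` a little away from `p`
    have hε : ∀ S : Finset ι, ∃ ε : ℝ, 0 < ε ∧ ∀ i ∈ S, i ∉ J →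
        L i q + ε * (L i q - L i p) ≤ β i := by
      intro S
      induction S using Finset.induction_on with
      | empty => exact ⟨1, one_pos, by simp⟩
      | insert j S hj ih =>
        obtain ⟨ε, hε, hS⟩ := ih
        by_cases hjJ : j ∈ J
        · refine ⟨ε, hε, fun i hi hiJ => ?_⟩
          rcases Finset.mem_insert.1 hi with rfl | hi
          · exact absurd hjJ hiJ
          · exact hS i hi hiJ
        · have hjq := hqs j (Finset.mem_univ _) hjJ
          set D := L j q - L j p with hD
          by_cases hD0 : D ≤ 0
          · refine ⟨ε, hε, fun i hi hiJ => ?_⟩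
            rcases Finset.mem_insert.1 hi with rfl | hi
            · have : ε * (L i q - L i p) ≤ 0 := mul_nonpos_of_nonneg_of_nonpos hε.le hD0
              linarith
            · exact hS i hi hiJ
          · push Not at hD0
            refine ⟨min ε ((β j - L j q) / D), lt_min hε (div_pos (by linarith) hD0),
              fun i hi hiJ => ?_⟩
            rcases Finset.mem_insert.1 hi with rfl | hi
            · have h1 : min ε ((β i - L i q) / D) * D ≤ (β i - L i q) / D * D :=
                mul_le_mul_of_nonneg_right (min_le_right _ _) hD0.le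
              rw [div_mul_cancel₀ _ hD0.ne'] at h1
              rw [← hD]
              linarith
            · have h1 := hS i hi hiJ
              have h2 := hFP hq i
              have h3 : 0 ≤ min ε ((β j - L j q) / D) :=
                le_min hε.le (div_nonneg (by linarith) hD0.le)
              by_cases h4 : 0 ≤ L i q - L i p
              · have := mul_le_mul_of_nonneg_right (min_le_left ε ((β j - L j q) / D)) h4
                linarith
              · push Not at h4
                have := mul_nonpos_of_nonneg_of_nonpos h3 h4.le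
                linarith
    obtain ⟨ε, hε, hεS⟩ := hε Finset.univ
    have hmem : q + ε • (q - p) ∈ polyh L β := by
      intro i
      simp only [map_add, map_smul, map_sub, smul_eq_mul]
      by_cases hi : i ∈ J
      · rw [hi q hq, hpJ i hi]
        simp
      · exact hεS i (Finset.mem_univ _) hi
    have hqmax : q ∈ {x | x ∈ polyh L β ∧ ∀ y ∈ polyh L β, l y ≤ l x} := by
      rw [← hl]; exact hq
    have h1 := hqmax.2 _ hmem
    simp only [map_add, map_smul, map_sub, smul_eq_mul] at h1
    have h2 : l q ≤ l p := by
      by_contra hcon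
      push Not at hcon
      have : 0 < ε * (l q - l p) := mul_pos hε (by linarith)
      linarith
    rw [hl]
    refine ⟨hp, fun y hy => ?_⟩
    have := hqmax.2 y hy
    linarith

/-- A point which is determined by tight inequalities is a vertex. -/
lemma extreme_of_fc {J : Set ι} {v : E} (h : fc L β J = {v}) : v ∈ (polyh L β).extremePoints ℝ := by
  have h1 := (exposed_fc (L := L) (β := β) J).isExtreme
  rw [h] at h1
  exact isExtreme_singleton.1 h1

/-- A vertex on a segment in the polyhedron is an end of the segment. -/
lemma extreme_segment {A : Set E} {v p q : E} (hv : v ∈ A.extremePoints ℝ) (hp : p ∈ A) (hq : q ∈ A)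
    (h : v ∈ segment ℝ p q) : v = p ∨ v = q := by
  rw [mem_extremePoints_iff_left] at hv
  by_cases h1 : v = p
  · exact Or.inl h1
  by_cases h2 : v = q
  · exact Or.inr h2
  exfalso
  have : v ∈ openSegment ℝ p q := by
    rw [← insert_endpoints_openSegment] at h
    rcases h with h | h | h
    · exact absurd h h1
    · exact absurd h h2
    · exact h
  exact h1 (hv.2 p hp q hq this).symm

end Pool.Agent.Q218.Known
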