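import Pool.Agent.Q218.Known.Val
set_option autoImplicit false
set_option linter.unusedSectionVars false

/-!
# Knowing the optimal vertex does not help: the objective function on the polytope, short paths, runs
-/

namespace Pool.Agent.Q218.Known

open Finset Pool.Agent.TH70.AR

variable {n : ℕ}

section defs

variable {E : Type*} [AddCommGroup E] [Module ℝ E] [TopologicalSpace E]

/-- the improving neighbours of the vertex `v` -/
def imp (A : Set E) (φ : E → ℕ) (v : E) : Set E := {u | Adj A v u ∧ φ v < φ u}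

/-- everything seen along `w 0, …, w t`, the current vertex first -/
def hist (A : Set E) (φ : E → ℕ) (w : ℕ → E) : ℕ → List (E × ℕ × Set E)
  | 0 => [(w 0, φ (w 0), imp A φ (w 0))]
  | t + 1 => (w (t + 1), φ (w (t + 1)), imp A φ (w (t + 1))) :: hist A φ w t

/-- an injective function on the vertices with one local maximum on every face -/
def IsAOF (A : Set E) (φ : E → ℕ) : Prop :=
  Set.InjOn φ (A.extremePoints ℝ) ∧ ∀ F : Set E, IsExposed ℝ A F → F.Nonempty →
    ∃! v, v ∈ F ∧ v ∈ A.extremePoints ℝ ∧ ∀ u ∈ F, Adj A v u → φ u < φ v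

end defs

open Classical in
/-- the objective function on the vertices of the polytope -/
noncomputable def phi (f : (Fin n → Bool) → ℕ) (w : Fin n → Bool) (p : (Fin n → ℝ) × ℝ) : ℕ :=
  if h : ∃ q : (Fin n → Bool) × ℕ, q.2 ≤ n + 1 ∧ p = vt q.1 q.2 then
    val f w h.choose.1 h.choose.2 else 0

lemma phi_vt (f : (Fin n → Bool) → ℕ) (w x : Fin n → Bool) {j : ℕ} (hj : j ≤ n + 1) :
    phi f w (vt x j) = val f w x j := by
  have h : ∃ q : (Fin n → Bool) × ℕ, q.2 ≤ n + 1 ∧ vt x j = vt q.1 q.2 := ⟨(x, j), hj, rfl⟩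
  rw [phi, dif_pos h]
  obtain ⟨h1, h2⟩ := h.choose_spec
  obtain ⟨h3, h4⟩ := vt_inj hj h1 h2
  rw [← h3, ← h4]

lemma compact_P (n : ℕ) : IsCompact (P n) := by
  have hcl : IsClosed (P n) := by
    rw [P_eq]
    have : polyh (LL n) (bb n) = ⋂ i, {p | LL n i p ≤ bb n i} := by
      ext p
      simp [polyh]
    rw [this]
    exact isClosed_iInter fun i => isClosed_le (LL n i).continuous continuous_const
  have hsub : P n ⊆ Set.Icc ((fun _ => 0, 0) : (Fin n → ℝ) × ℝ)
      (fun _ => 4 * (n : ℝ) + 4, 2 * (n : ℝ) + 1) := by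
    rintro p ⟨h1, h2, h3⟩
    exact ⟨⟨fun i => (h3 i).1, h1⟩, ⟨fun i => (h3 i).2.1, h2⟩⟩
  exact isCompact_Icc.of_isClosed_subset hcl hsub

/-- a nonempty face contains a vertex -/
lemma exists_inF {J : Set (Con n)} (h : (face n J).Nonempty) : ∃ x j, InF J x j := by
  have h1 : IsCompact (face n J) := (exposed_face J).isCompact (compact_P n)
  obtain ⟨v, hv⟩ := h1.extremePoints_nonempty h
  have h2 := (exposed_face (n := n) J).isExtreme.extremePoints_subset_extremePoints hv
  obtain ⟨x, j, hj, rfl⟩ := extreme_vt h2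
  exact ⟨x, j, hj, (vt_face hj J).1 (extremePoints_subset hv)⟩

lemma cadj_ne {x y : Fin n → Bool} {j k : ℕ} (h : CAdj x j y k) : ¬ (x = y ∧ j = k) := by
  rintro ⟨rfl, rfl⟩
  rcases h with ⟨-, h⟩ | ⟨-, i, -, h⟩
  · omega
  · exact flip_ne x i h.symm

/-- a face with a vertex has a local maximum -/
lemma exists_lm {f : (Fin n → Bool) → ℕ} (hinj : Function.Injective f) {w : Fin n → Bool}
    (hw : ∀ x, f x ≤ f w) {J : Set (Con n)} {x : Fin n → Bool} {j : ℕ} (h : InF J x j) :
    ∃ y k, LM f w J y k := by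
  classical
  set S : Finset ((Fin n → Bool) × ℕ) :=
    (univ ×ˢ range (n + 2)).filter fun q => InF J q.1 q.2 with hS
  have hne : S.Nonempty := ⟨(x, j), mem_filter.2 ⟨mem_product.2 ⟨mem_univ _,
    mem_range.2 (by have := h.1; omega)⟩, h⟩⟩
  obtain ⟨q, hq, hmax⟩ := S.exists_max_image (fun q => val f w q.1 q.2) hne
  have hqF : InF J q.1 q.2 := (mem_filter.1 hq).2
  refine ⟨q.1, q.2, hqF, fun y k hy hadj => ?_⟩
  have h1 := hmax (y, k) (mem_filter.2 ⟨mem_product.2 ⟨mem_univ _,
    mem_range.2 (by have := hy.1; omega)⟩, hy⟩)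
  refine lt_of_le_of_ne h1 fun h2 => cadj_ne hadj ?_
  exact val_inj hinj hw hqF.1 hy.1 h2.symm

theorem isAOF {f : (Fin n → Bool) → ℕ} (hf : AOF f) (hinj : Function.Injective f)
    {w : Fin n → Bool} (hw : ∀ x, f x ≤ f w) : IsAOF (P n) (phi f w) := by
  constructor
  · intro p hp q hq hpq
    obtain ⟨x, j, hj, rfl⟩ := extreme_vt hp
    obtain ⟨y, k, hk, rfl⟩ := extreme_vt hq
    rw [phi_vt f w x hj, phi_vt f w y hk] at hpq
    obtain ⟨rfl, rfl⟩ := val_inj hinj hw hj hk hpq
    rfl
  · intro F hF hne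
    obtain ⟨J, rfl⟩ := exists_face hF hne
    have key : ∀ {x : Fin n → Bool} {j : ℕ}, j ≤ n + 1 → (LM f w J x j ↔
        (vt x j ∈ face n J ∧ vt x j ∈ (P n).extremePoints ℝ ∧
          ∀ u ∈ face n J, Adj (P n) (vt x j) u → phi f w u < phi f w (vt x j))) := by
      intro x j hj
      constructor
      · rintro ⟨h1, h2⟩
        refine ⟨(vt_face hj J).2 h1.2, vt_extreme x hj, fun u hu hadj => ?_⟩
        obtain ⟨y, k, hk, rfl⟩ := extreme_vt hadj.2.2.1
        rw [phi_vt f w x hj, phi_vt f w y hk]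
        exact h2 y k ⟨hk, (vt_face hk J).1 hu⟩ ((adj_iff hj hk).1 hadj)
      · rintro ⟨h1, -, h3⟩
        refine ⟨⟨hj, (vt_face hj J).1 h1⟩, fun y k hy hadj => ?_⟩
        have h4 := h3 (vt y k) ((vt_face hy.1 J).2 hy.2) ((adj_iff hj hy.1).2 hadj)
        rwa [phi_vt f w x hj, phi_vt f w y hy.1] at h4
    obtain ⟨x, j, hx⟩ := exists_inF hne
    obtain ⟨y, k, hy⟩ := exists_lm hinj hw hx
    refine ⟨vt y k, (key hy.1.1).1 hy, ?_⟩
    rintro v ⟨h1, h2, h3⟩
    obtain ⟨z, l, hl, rfl⟩ := extreme_vt h2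
    obtain ⟨rfl, rfl⟩ := lm_unique hf hw hinj ((key hl).2 ⟨h1, h2, h3⟩) hy
    rfl

/-! ### The polytope is simple -/

/-- the neighbours of a vertex -/
noncomputable def nb (x : Fin n → Bool) (j : ℕ) : Option (Fin n) → (Fin n → Bool) × ℕ
  | none => if j = 0 then (x, 1) else (x, j - 1)
  | some i => if (i : ℕ) + 1 = j then (x, j + 1) else (flip x i, j)

lemma flip_inj {x : Fin n → Bool} {i k : Fin n} (h : flip x i = flip x k) : i = k := by
  by_contra hne
  have := congrFun h i
  rw [flip_self, flip_of_ne x hne] at this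
  cases hx : x i <;> simp [hx] at this

theorem degree {v : (Fin n → ℝ) × ℝ} (hv : v ∈ (P n).extremePoints ℝ) :
    {u | Adj (P n) v u}.ncard = n + 1 := by
  obtain ⟨x, j, hj, rfl⟩ := extreme_vt hv
  have hle : ∀ o, (nb x j o).2 ≤ n + 1 := by
    rintro (_ | i)
    · simp only [nb]; split_ifs <;> simp <;> omega
    · have := i.2
      simp only [nb]; split_ifs <;> simp <;> omega
  have hset : {u | Adj (P n) (vt x j) u} =
      Set.range fun o : Option (Fin n) => vt (nb x j o).1 (nb x j o).2 := by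
    ext u
    simp only [Set.mem_ofPred_eq, Set.mem_range]
    constructor
    · intro hadj
      obtain ⟨y, k, hk, rfl⟩ := extreme_vt hadj.2.2.1
      rcases (adj_iff hj hk).1 hadj with ⟨rfl, h | h⟩ | ⟨rfl, i, h, rfl⟩
      · rcases Nat.eq_zero_or_pos j with h0 | h0
        · refine ⟨none, ?_⟩
          simp only [nb, if_pos h0]
          rw [h, h0]
        · refine ⟨some ⟨j - 1, by omega⟩, ?_⟩
          simp only [nb]
          rw [if_pos (by omega), h]
      · refine ⟨none, ?_⟩
        simp only [nb]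
        rw [if_neg (by omega)]
        simp [h]
      · refine ⟨some i, ?_⟩
        simp only [nb]
        rw [if_neg h]
    · rintro ⟨o, rfl⟩
      rw [adj_iff hj (hle o)]
      rcases o with _ | i
      · simp only [nb]
        split_ifs with h0
        · exact Or.inl ⟨rfl, Or.inl (by simp [h0])⟩
        · exact Or.inl ⟨rfl, Or.inr (by simp; omega)⟩
      · simp only [nb]
        split_ifs with h0
        · exact Or.inl ⟨rfl, Or.inl rfl⟩
        · exact Or.inr ⟨rfl, i, h0, rfl⟩
  have hinj : Function.Injective fun o : Option (Fin n) => vt (nb x j o).1 (nb x j o).2 := by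
    intro o o' h
    obtain ⟨h1, h2⟩ := vt_inj (hle o) (hle o') h
    rcases o with _ | i <;> rcases o' with _ | k
    · rfl
    · simp only [nb] at h1 h2
      split_ifs at h1 h2 with a b b
      all_goals omega
    · simp only [nb] at h1 h2
      split_ifs at h1 h2 with a b b
      all_goals omega
    · simp only [nb] at h1 h2
      split_ifs at h1 h2 with a b b
      · congr 1; exact Fin.ext (by omega)
      · simp at h2
      · simp at h2
      · rw [flip_inj h1]
  rw [hset, Set.ncard_range_of_injective hinj]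
  simp

/-! ### Short paths -/

/-- the number of different coordinates -/
def ham (x w : Fin n → Bool) : ℕ := (univ.filter fun i => x i ≠ w i).card

lemma ham_le (x w : Fin n → Bool) : ham x w ≤ n := by
  have := card_filter_le (univ : Finset (Fin n)) fun i => x i ≠ w i
  simpa [ham] using this

lemma ham_flip {x w : Fin n → Bool} {i : Fin n} (h : x i ≠ w i) : ham (flip x i) w < ham x w := by
  apply card_lt_card
  rw [ssubset_iff_of_subset]
  · refine ⟨i, mem_filter.2 ⟨mem_univ _, h⟩, fun h' => ?_⟩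
    have := (mem_filter.1 h').2
    rw [flip_self] at this
    cases h1 : x i <;> cases h2 : w i <;> simp_all
  · intro k hk
    rw [mem_filter] at hk ⊢
    refine ⟨mem_univ _, ?_⟩
    by_cases hki : k = i
    · subst hki; exact h
    · rw [flip_of_ne x hki] at hk
      exact hk.2

/-- towards the maximum of an abstract objective function of the cube -/
lemma toward {f : (Fin n → Bool) → ℕ} (hf : AOF f) (hinj : Function.Injective f)
    {w : Fin n → Bool} (hw : ∀ x, f x ≤ f w) {x : Fin n → Bool} (hx : x ≠ w) :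
    ∃ i, x i ≠ w i ∧ f x < f (flip x i) := by
  classical
  by_contra hcon
  push Not at hcon
  obtain ⟨z, -, hz⟩ := hf (univ.filter fun i => x i ≠ w i) x
  apply hx
  rw [hz x ⟨fun _ _ => rfl, fun i hi => lt_of_le_of_ne (hcon i (mem_filter.1 hi).2)
    fun h => flip_ne x i (hinj h)⟩]
  refine (hz w ⟨fun i hi => ?_, fun i hi => lt_of_le_of_ne (hw _)
    fun h => flip_ne w i (hinj h)⟩).symm
  rw [mem_filter] at hi
  push Not at hi
  exact (hi (mem_univ _)).symm

open Classical in
/-- a bound for the distance to the optimal vertex -/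
noncomputable def dd (w x : Fin n → Bool) (j : ℕ) : ℕ :=
  if j = 0 then ham x w + 2 * n + 1
  else if Main w x j then 2 * (n + 1 - j) + (if x = best w j then 0 else 1)
  else j + 3 * n + 1

lemma dd_zero (w x : Fin n → Bool) : dd w x 0 = ham x w + 2 * n + 1 := by simp [dd]

lemma dd_main {w x : Fin n → Bool} {j : ℕ} (h : Main w x j) :
    dd w x j = 2 * (n + 1 - j) + (if x = best w j then 0 else 1) := by
  rw [dd, if_neg (by have := h.1; omega), if_pos h]

lemma dd_non {w x : Fin n → Bool} {j : ℕ} (hj : 1 ≤ j) (h : ¬ Main w x j) :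
    dd w x j = j + 3 * n + 1 := by
  rw [dd, if_neg (by omega), if_neg h]

lemma dd_le (w x : Fin n → Bool) {j : ℕ} (hj : j ≤ n + 1) : dd w x j ≤ 4 * n + 2 := by
  rcases Nat.eq_zero_or_pos j with h | h
  · subst h
    rw [dd_zero]
    have := ham_le x w
    omega
  · by_cases hm : Main w x j
    · rw [dd_main hm]
      split_ifs <;> omega
    · rw [dd_non h hm]
      omega

lemma best_top (w : Fin n → Bool) : best w (n + 1) = fun _ => true := by
  funext i
  rw [best, if_pos (by have := i.2; omega)]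

lemma step {f : (Fin n → Bool) → ℕ} (hf : AOF f) (hinj : Function.Injective f)
    {w : Fin n → Bool} (hw : ∀ x, f x ≤ f w) {x : Fin n → Bool} {j : ℕ} (hj : j ≤ n + 1)
    (hne : ¬ (x = (fun _ => true) ∧ j = n + 1)) :
    ∃ y k, k ≤ n + 1 ∧ CAdj x j y k ∧ val f w x j < val f w y k ∧ dd w y k < dd w x j := by
  rcases Nat.eq_zero_or_pos j with h0 | h0
  · subst h0
    by_cases hxw : x = w
    · subst hxw
      have hm : Main x x 1 := ⟨le_rfl, fun i => Or.inl (by rw [best, if_neg (by omega)])⟩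
      refine ⟨x, 1, by omega, Or.inl ⟨rfl, Or.inl rfl⟩, ?_, ?_⟩
      · have := lt_val_main (f := f) hm
        rw [val_zero]
        exact this
      · rw [dd_zero, dd_main hm, if_pos]
        · omega
        · funext i
          rw [best, if_neg (by omega)]
    · obtain ⟨i, h1, h2⟩ := toward hf hinj hw hxw
      refine ⟨flip x i, 0, by omega, Or.inr ⟨rfl, i, by omega, rfl⟩, ?_, ?_⟩
      · rw [val_zero, val_zero]
        omega
      · rw [dd_zero, dd_zero]
        have := ham_flip h1
        omega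
  · by_cases hm : Main w x j
    · by_cases hb : x = best w j
      · have hjn : j ≤ n := by
          by_contra hcon
          have hj' : j = n + 1 := by omega
          subst hj'
          exact hne ⟨by rw [hb, best_top], rfl⟩
        have hm' : Main w x (j + 1) := by rw [hb]; exact main_next w j
        refine ⟨x, j + 1, by omega, Or.inl ⟨rfl, Or.inl rfl⟩, ?_, ?_⟩
        · rw [hb]
          exact val_up h0
        · rw [dd_main hm, dd_main hm', if_pos hb]
          split_ifs <;> omega
      · obtain ⟨i, hi⟩ : ∃ i, x i ≠ best w j i := by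
          by_contra hcon
          push Not at hcon
          exact hb (funext hcon)
        have hij : (i : ℕ) + 2 = j := by
          rcases hm.2 i with h | ⟨h, -⟩
          · exact absurd h hi
          · exact h
        have hfl : flip x i = best w j := by
          funext k
          by_cases hk : k = i
          · subst hk
            rw [flip_self]
            cases h1 : x k <;> cases h2 : best w j k <;> simp_all
          · rw [flip_of_ne x hk]
            rcases hm.2 k with h2 | ⟨h2, -⟩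
            · exact h2
            · exact absurd (Fin.ext (by omega)) hk
        refine ⟨flip x i, j, hj, Or.inr ⟨rfl, i, by omega, rfl⟩,
          val_flip h0 i (by omega) hi, ?_⟩
        rw [hfl, dd_main (main_best w h0), dd_main hm, if_pos rfl, if_neg hb]
        omega
    · obtain ⟨j', rfl⟩ : ∃ j', j = j' + 1 := ⟨j - 1, by omega⟩
      refine ⟨x, j', by omega, Or.inl ⟨rfl, Or.inr rfl⟩, val_down (by omega) hm, ?_⟩
      rw [dd_non h0 hm]
      rcases Nat.eq_zero_or_pos j' with h1 | h1
      · subst h1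
        rw [dd_zero]
        have := ham_le x w
        omega
      · by_cases hm' : Main w x j'
        · rw [dd_main hm']
          split_ifs <;> omega
        · rw [dd_non h1 hm']
          omega

lemma path {f : (Fin n → Bool) → ℕ} (hf : AOF f) (hinj : Function.Injective f)
    {w : Fin n → Bool} (hw : ∀ x, f x ≤ f w) : ∀ (d : ℕ) (x : Fin n → Bool) (j : ℕ),
    j ≤ n + 1 → dd w x j ≤ d → ∃ m ≤ d, ∃ p : ℕ → (Fin n → ℝ) × ℝ, p 0 = vt x j ∧
      p m = vt (fun _ => true) (n + 1) ∧
      ∀ t < m, Adj (P n) (p t) (p (t + 1)) ∧ phi f w (p t) < phi f w (p (t + 1)) := by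
  intro d
  induction d with
  | zero =>
    intro x j hj hd
    by_cases hne : x = (fun _ => true) ∧ j = n + 1
    · obtain ⟨rfl, rfl⟩ := hne
      exact ⟨0, le_rfl, fun _ => vt (fun _ => true) (n + 1), rfl, rfl, fun t ht => by omega⟩
    · obtain ⟨y, k, -, -, -, h⟩ := step hf hinj hw hj hne
      omega
  | succ d ih =>
    intro x j hj hd
    by_cases hne : x = (fun _ => true) ∧ j = n + 1
    · obtain ⟨rfl, rfl⟩ := hne
      exact ⟨0, by omega, fun _ => vt (fun _ => true) (n + 1), rfl, rfl, fun t ht => by omega⟩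
    · obtain ⟨y, k, hk, h1, h2, h3⟩ := step hf hinj hw hj hne
      obtain ⟨m, hm, p, hp0, hpm, hp⟩ := ih y k hk (by omega)
      refine ⟨m + 1, by omega, fun t => Nat.casesOn t (vt x j) p, rfl, hpm, ?_⟩
      intro t ht
      cases t with
      | zero =>
        show Adj (P n) (vt x j) (p 0) ∧ phi f w (vt x j) < phi f w (p 0)
        rw [hp0, phi_vt f w x hj, phi_vt f w y hk]
        exact ⟨(adj_iff hj hk).2 h1, h2⟩
      | succ t => exact hp t (by omega)

/-! ### Runs -/

/-- the improving neighbours of a vertex of the bottom -/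
lemma imp_bot {f : (Fin n → Bool) → ℕ} {w x : Fin n → Bool} (hx : x ≠ w) :
    imp (P n) (phi f w) (vt x 0) = {u | ∃ i ∈ improving f x, u = vt (flip x i) 0} := by
  ext u
  constructor
  · rintro ⟨hadj, hlt⟩
    obtain ⟨y, k, hk, rfl⟩ := extreme_vt hadj.2.2.1
    rw [phi_vt f w x (by omega), phi_vt f w y hk] at hlt
    rcases (adj_iff (by omega) hk).1 hadj with ⟨rfl, h | h⟩ | ⟨rfl, i, h, rfl⟩
    · exfalso
      have hk1 : k = 1 := by omega
      subst hk1
      have hm : ¬ Main w y 1 := by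
        rintro ⟨-, h1⟩
        apply hx
        funext i
        rcases h1 i with h2 | ⟨h2, -⟩
        · rw [h2, best, if_neg (by omega)]
        · omega
      exact absurd hlt (not_lt.2 (val_down (f := f) (w := w) (x := y) (j := 0) (by omega) hm).le)
    · omega
    · rw [val_zero, val_zero] at hlt
      exact ⟨i, mem_filter.2 ⟨mem_univ _, by omega⟩, rfl⟩
  · rintro ⟨i, hi, rfl⟩
    refine ⟨adj_hor x (by omega) (by omega), ?_⟩
    rw [phi_vt f w x (by omega), phi_vt f w _ (by omega), val_zero, val_zero]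
    have := (mem_filter.1 hi).2
    omega

/-- translation of what is seen on the cube -/
noncomputable def tr (n : ℕ) (r : (Fin n → Bool) × ℕ × Finset (Fin n)) :
    ((Fin n → ℝ) × ℝ) × ℕ × Set ((Fin n → ℝ) × ℝ) :=
  (vt r.1 0, CC n + r.2.1, {u | ∃ i ∈ r.2.2, u = vt (flip r.1 i) 0})

open Classical in
/-- translation of a rule -/
noncomputable def rl (hn : 0 < n)
    (R : List (((Fin n → ℝ) × ℝ) × ℕ × Set ((Fin n → ℝ) × ℝ)) → (Fin n → ℝ) × ℝ) (l : Past n) :
    Fin n :=
  if h : ∃ i : Fin n, ∃ r l', l = r :: l' ∧ i ∈ r.2.2 ∧ R (l.map (tr n)) = vt (flip r.1 i) 0 then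
    h.choose else ⟨0, hn⟩

lemma rl_spec (hn : 0 < n)
    {R : List (((Fin n → ℝ) × ℝ) × ℕ × Set ((Fin n → ℝ) × ℝ)) → (Fin n → ℝ) × ℝ}
    (hR : ∀ v c S l, S.Nonempty → R ((v, c, S) :: l) ∈ S)
    (x : Fin n → Bool) (c : ℕ) (S : Finset (Fin n)) (l : Past n) (hS : S.Nonempty) :
    rl hn R ((x, c, S) :: l) ∈ S ∧
      R (((x, c, S) :: l).map (tr n)) = vt (flip x (rl hn R ((x, c, S) :: l))) 0 := by
  have hne : ({u | ∃ i ∈ S, u = vt (flip x i) 0} : Set ((Fin n → ℝ) × ℝ)).Nonempty := by
    obtain ⟨i, hi⟩ := hS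
    exact ⟨_, i, hi, rfl⟩
  obtain ⟨i, hi, hi'⟩ := hR (vt x 0) (CC n + c) _ (l.map (tr n)) hne
  have h : ∃ i : Fin n, ∃ r l', (x, c, S) :: l = r :: l' ∧ i ∈ r.2.2 ∧
      R (((x, c, S) :: l).map (tr n)) = vt (flip r.1 i) 0 :=
    ⟨i, (x, c, S), l, rfl, hi, hi'⟩
  rw [rl, dif_pos h]
  obtain ⟨r, l', h1, h2, h3⟩ := h.choose_spec
  rw [List.cons.injEq] at h1
  obtain ⟨rfl, rfl⟩ := h1
  exact ⟨h2, h3⟩

theorem known {J M : ℕ} (hJ : 1 ≤ J) (hn : AR2.ms J * (4 * J + M) ≤ n) (hM : 1 ≤ M) (hn0 : 0 < n)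
    (rule : Fin M → List (((Fin n → ℝ) × ℝ) × ℕ × Set ((Fin n → ℝ) × ℝ)) → (Fin n → ℝ) × ℝ)
    (hrule : ∀ q v c S l, S.Nonempty → rule q ((v, c, S) :: l) ∈ S)
    (x₀ : Fin M → Fin n → Bool) :
    ∃ φ : (Fin n → ℝ) × ℝ → ℕ, IsAOF (P n) φ ∧
      (∀ v ∈ (P n).extremePoints ℝ, ∃ m ≤ 4 * n + 2, ∃ p : ℕ → (Fin n → ℝ) × ℝ, p 0 = v ∧
        p m = vt (fun _ => true) (n + 1) ∧
        ∀ t < m, Adj (P n) (p t) (p (t + 1)) ∧ φ (p t) < φ (p (t + 1))) ∧
      ∀ (q : Fin M) (w : ℕ → (Fin n → ℝ) × ℝ), w 0 = vt (x₀ q) 0 →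
        (∀ t, (imp (P n) φ (w t)).Nonempty → w (t + 1) = rule q (hist (P n) φ w t)) →
        ∀ t ≤ 2 ^ J, ∃ x, w t = vt x 0 := by
  obtain ⟨f, hinj, hf, hrun⟩ := AR2.slow_many hJ hn hM (fun q => rl hn0 (rule q))
    (fun q x c S l hS => (rl_spec hn0 (hrule q) x c S l hS).1) x₀
  obtain ⟨w, -, hw⟩ := (univ : Finset (Fin n → Bool)).exists_max_image f univ_nonempty
  have hw' : ∀ x, f x ≤ f w := fun x => hw x (mem_univ _)
  refine ⟨phi f w, isAOF hf hinj hw', ?_, ?_⟩
  · intro v hv
    obtain ⟨x, j, hj, rfl⟩ := extreme_vt hv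
    obtain ⟨m, hm, h⟩ := path hf hinj hw' _ x j hj le_rfl
    exact ⟨m, hm.trans (dd_le w x hj), h⟩
  · intro q v hv0 hv t ht
    obtain ⟨L, u, hu0, hu, -, hL⟩ := hrun q
    have hne : ∀ t < L, u t ≠ w := by
      intro t ht h
      obtain ⟨i, hi⟩ := (hu t ht).1
      rw [h] at hi
      have h1 := (mem_filter.1 hi).2
      have h2 := hw' (flip w i)
      omega
    have hview : ∀ t < L, (vt (u t) 0, phi f w (vt (u t) 0), imp (P n) (phi f w) (vt (u t) 0)) =
        tr n (view f (u t)) := by
      intro t ht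
      rw [phi_vt f w _ (by omega), val_zero, imp_bot (hne t ht)]
      rfl
    have hnonempty : ∀ t < L, (imp (P n) (phi f w) (vt (u t) 0)).Nonempty := by
      intro t ht
      rw [imp_bot (hne t ht)]
      obtain ⟨i, hi⟩ := (hu t ht).1
      exact ⟨_, i, hi, rfl⟩
    have key : ∀ t ≤ L, v t = vt (u t) 0 ∧ (t < L → hist (P n) (phi f w) v t =
        (seen f u t).map (tr n)) := by
      intro t
      induction t with
      | zero =>
        intro _
        have h1 : v 0 = vt (u 0) 0 := by rw [hv0, hu0]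
        refine ⟨h1, fun ht => ?_⟩
        rw [hist, h1, seen, List.map_singleton, hview 0 ht]
      | succ t ih =>
        intro ht
        obtain ⟨h1, h2⟩ := ih (by omega)
        have h2 := h2 (by omega)
        have h3 : v (t + 1) = vt (u (t + 1)) 0 := by
          rw [hv t (by rw [h1]; exact hnonempty t (by omega)), h2, (hu t (by omega)).2]
          cases t with
          | zero => exact (rl_spec hn0 (hrule q) _ _ _ _ (hu 0 (by omega)).1).2
          | succ t => exact (rl_spec hn0 (hrule q) _ _ _ _ (hu (t + 1) (by omega)).1).2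
        refine ⟨h3, fun ht => ?_⟩
        rw [hist, h3, seen, List.map_cons, hview (t + 1) ht, h2]
    exact ⟨u t, (key t (by omega)).1⟩

end Pool.Agent.Q218.Known
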