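import Pool.Agent.Q218.Known.Face
set_option autoImplicit false
set_option linter.unusedSectionVars false

/-!
# A simple polytope of dimension `n + 1` with `4 n + 2` facets: its vertices

`P n` is the set of all `(y, t)` with `0 ≤ t ≤ 2 n + 1` and, for all `i < n`,
`0 ≤ y i ≤ 4 n + 4`, `t ≤ y i + (2 i + 1)` and `t ≤ (4 n + 4 - y i) + (2 i + 2)`.
-/

namespace Pool.Agent.Q218.Known

open Set

variable {n : ℕ}

/-- the height where the second facet on the side `b` of the coordinate `i` begins -/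
noncomputable def lev (i : Fin n) (b : Bool) : ℝ := 2 * (i : ℕ) + 1 + (if b then 1 else 0)

/-- the distance of the coordinate `y` from the side `b` -/
def dst (n : ℕ) (b : Bool) (y : ℝ) : ℝ := if b then 4 * n + 4 - y else y

/-- the point at distance `e` from the side `b` -/
def pos (n : ℕ) (b : Bool) (e : ℝ) : ℝ := if b then 4 * n + 4 - e else e

lemma dst_pos (n : ℕ) (b : Bool) (e : ℝ) : dst n b (pos n b e) = e := by
  cases b <;> simp [dst, pos]

lemma pos_dst (n : ℕ) (b : Bool) (y : ℝ) : pos n b (dst n b y) = y := by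
  cases b <;> simp [dst, pos]

lemma dst_not (n : ℕ) (b : Bool) (y : ℝ) : dst n (!b) y = 4 * n + 4 - dst n b y := by
  cases b <;> simp [dst]

/-- The polytope. -/
def P (n : ℕ) : Set ((Fin n → ℝ) × ℝ) :=
  {p | 0 ≤ p.2 ∧ p.2 ≤ 2 * n + 1 ∧ ∀ i : Fin n, 0 ≤ p.1 i ∧ p.1 i ≤ 4 * n + 4 ∧
    p.2 ≤ p.1 i + (2 * (i : ℕ) + 1) ∧ p.2 ≤ (4 * n + 4 - p.1 i) + (2 * (i : ℕ) + 2)}

lemma mem_P {p : (Fin n → ℝ) × ℝ} : p ∈ P n ↔ 0 ≤ p.2 ∧ p.2 ≤ 2 * n + 1 ∧
    ∀ (i : Fin n) (b : Bool), 0 ≤ dst n b (p.1 i) ∧ p.2 - lev i b ≤ dst n b (p.1 i) := by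
  unfold P
  simp only [Set.mem_ofPred_eq, Bool.forall_bool, dst, lev]
  constructor
  · rintro ⟨h1, h2, h3⟩
    refine ⟨h1, h2, fun i => ?_⟩
    obtain ⟨h4, h5, h6, h7⟩ := h3 i
    simp only [Bool.false_eq_true, if_false, if_true]
    refine ⟨⟨h4, by linarith⟩, by linarith, by linarith⟩
  · rintro ⟨h1, h2, h3⟩
    refine ⟨h1, h2, fun i => ?_⟩
    obtain ⟨⟨h4, h5⟩, h6, h7⟩ := h3 i
    simp only [Bool.false_eq_true, if_false, if_true] at h4 h5 h6 h7
    refine ⟨h4, by linarith, by linarith, by linarith⟩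

/-- The `4 n + 2` inequalities: `inl false` the bottom, `inl true` the top, `inr (i, b, false)` the
first and `inr (i, b, true)` the second facet on the side `b` of the coordinate `i`. -/
abbrev Con (n : ℕ) := Bool ⊕ Fin n × Bool × Bool

/-- the linear forms -/
noncomputable def LL (n : ℕ) : Con n → (((Fin n → ℝ) × ℝ) →L[ℝ] ℝ)
  | Sum.inl false => -ContinuousLinearMap.snd ℝ (Fin n → ℝ) ℝ
  | Sum.inl true => ContinuousLinearMap.snd ℝ (Fin n → ℝ) ℝ
  | Sum.inr (i, b, c) =>
    (if b then (1 : ℝ) else -1) • ((ContinuousLinearMap.proj i : (Fin n → ℝ) →L[ℝ] ℝ).comp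
      (ContinuousLinearMap.fst ℝ _ _)) +
    (if c then (1 : ℝ) else 0) • ContinuousLinearMap.snd ℝ (Fin n → ℝ) ℝ

/-- the right-hand sides -/
noncomputable def bb (n : ℕ) : Con n → ℝ
  | Sum.inl false => 0
  | Sum.inl true => 2 * n + 1
  | Sum.inr (i, b, c) => (if b then 4 * (n : ℝ) + 4 else 0) + (if c then lev i b else 0)

/-- the slack of an inequality at a point -/
noncomputable def slack (c : Con n) (p : (Fin n → ℝ) × ℝ) : ℝ := bb n c - LL n c p

lemma slack_bot (p : (Fin n → ℝ) × ℝ) : slack (Sum.inl false) p = p.2 := by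
  simp [slack, LL, bb]

lemma slack_top (p : (Fin n → ℝ) × ℝ) : slack (Sum.inl true) p = 2 * n + 1 - p.2 := by
  simp [slack, LL, bb]

lemma slack_lo (i : Fin n) (b : Bool) (p : (Fin n → ℝ) × ℝ) :
    slack (Sum.inr (i, b, false)) p = dst n b (p.1 i) := by
  cases b <;> simp [slack, LL, bb, dst]

lemma slack_up (i : Fin n) (b : Bool) (p : (Fin n → ℝ) × ℝ) :
    slack (Sum.inr (i, b, true)) p = dst n b (p.1 i) - (p.2 - lev i b) := by
  cases b <;> simp [slack, LL, bb, dst] <;> ring

lemma P_eq (n : ℕ) : P n = polyh (LL n) (bb n) := by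
  ext p
  rw [mem_P]
  unfold polyh
  simp only [Set.mem_ofPred_eq]
  have key : ∀ c : Con n, (LL n c p ≤ bb n c ↔ 0 ≤ slack c p) := fun c => by
    unfold slack
    constructor <;> intro h <;> linarith
  simp only [key]
  constructor
  · rintro ⟨h1, h2, h3⟩ c
    rcases c with (_ | _) | ⟨i, b, (_ | _)⟩
    · rw [slack_bot]; exact h1
    · rw [slack_top]; linarith
    · rw [slack_lo]; exact (h3 i b).1
    · rw [slack_up]; linarith [(h3 i b).2]
  · intro h
    refine ⟨?_, ?_, fun i b => ⟨?_, ?_⟩⟩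
    · have := h (Sum.inl false); rwa [slack_bot] at this
    · have := h (Sum.inl true); rw [slack_top] at this; linarith
    · have := h (Sum.inr (i, b, false)); rwa [slack_lo] at this
    · have := h (Sum.inr (i, b, true)); rw [slack_up] at this; linarith

/-- the face of `P n` on which the inequalities in `J` are tight -/
def face (n : ℕ) (J : Set (Con n)) : Set ((Fin n → ℝ) × ℝ) :=
  {p | p ∈ P n ∧ ∀ c ∈ J, slack c p = 0}

lemma face_eq (J : Set (Con n)) : face n J = fc (LL n) (bb n) J := by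
  ext p
  unfold face fc
  simp only [Set.mem_ofPred_eq]
  rw [P_eq]
  apply and_congr Iff.rfl
  apply forall_congr'
  intro c
  apply imp_congr Iff.rfl
  unfold slack
  constructor <;> intro h <;> linarith

lemma exposed_face (J : Set (Con n)) : IsExposed ℝ (P n) (face n J) := by
  rw [face_eq, P_eq]
  exact exposed_fc J

lemma exists_face {F : Set ((Fin n → ℝ) × ℝ)} (hF : IsExposed ℝ (P n) F) (hne : F.Nonempty) :
    ∃ J : Set (Con n), F = face n J := by
  rw [P_eq] at hF
  obtain ⟨J, hJ⟩ := exists_fc hF hne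
  exact ⟨J, by rw [hJ, face_eq]⟩

/-! ### The vertices -/

/-- the height of the `j`-th vertex (`0 ≤ j ≤ n + 1`) over the vertex `x` of the cube -/
noncomputable def hgt (x : Fin n → Bool) (j : ℕ) : ℝ :=
  if j = 0 then 0 else if h : j - 1 < n then lev ⟨j - 1, h⟩ (x ⟨j - 1, h⟩) else 2 * n + 1

/-- the distance of the `j`-th vertex over `x` from the side `x i` of the coordinate `i` -/
noncomputable def off (x : Fin n → Bool) (j : ℕ) (i : Fin n) : ℝ := max 0 (hgt x j - lev i (x i))

/-- the `j`-th vertex over `x` -/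
noncomputable def vt (x : Fin n → Bool) (j : ℕ) : (Fin n → ℝ) × ℝ :=
  (fun i => pos n (x i) (off x j i), hgt x j)

lemma lev_bounds (i : Fin n) (b : Bool) :
    2 * ((i : ℕ) : ℝ) + 1 ≤ lev i b ∧ lev i b ≤ 2 * ((i : ℕ) : ℝ) + 2 := by
  unfold lev
  split_ifs <;> constructor <;> linarith

lemma hgt_zero (x : Fin n → Bool) : hgt x 0 = 0 := by simp [hgt]

lemma hgt_mid (x : Fin n → Bool) (i : Fin n) : hgt x (i + 1) = lev i (x i) := by
  unfold hgt
  rw [if_neg (by omega), dif_pos (by simp)]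
  simp

lemma hgt_top (x : Fin n → Bool) : hgt x (n + 1) = 2 * n + 1 := by
  unfold hgt
  rw [if_neg (by omega), dif_neg (by simp)]

lemma cases_j {j : ℕ} (hj : j ≤ n + 1) : j = 0 ∨ (∃ i : Fin n, j = i + 1) ∨ j = n + 1 := by
  rcases Nat.eq_zero_or_pos j with h | h
  · exact Or.inl h
  · rcases Nat.lt_or_ge n j with h1 | h1
    · exact Or.inr (Or.inr (by omega))
    · exact Or.inr (Or.inl ⟨⟨j - 1, by omega⟩, by simp; omega⟩)

lemma cast_lt {a b : ℕ} (h : a < b) : (a : ℝ) + 1 ≤ b := by exact_mod_cast h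

/-- comparison of heights -/
lemma hgt_lt (x : Fin n → Bool) {j : ℕ} (i : Fin n) (hj : j < i + 1) : hgt x j < lev i (x i) := by
  have h1 := (lev_bounds i (x i)).1
  have hi := i.2
  rcases cases_j (n := n) (j := j) (by omega) with h | ⟨k, h⟩ | h
  · subst h
    rw [hgt_zero]
    have : (0 : ℝ) ≤ ((i : ℕ) : ℝ) := Nat.cast_nonneg _
    linarith
  · subst h
    rw [hgt_mid]
    have h2 := (lev_bounds k (x k)).2
    have h3 : ((k : ℕ) : ℝ) + 1 ≤ ((i : ℕ) : ℝ) := cast_lt (by omega)
    linarith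
  · omega

lemma lt_hgt (x : Fin n → Bool) {j : ℕ} (hj' : j ≤ n + 1) (i : Fin n) (hj : i + 1 < j) :
    lev i (x i) < hgt x j := by
  have h1 := (lev_bounds i (x i)).2
  have hi := i.2
  rcases cases_j (n := n) hj' with h | ⟨k, h⟩ | h
  · omega
  · subst h
    rw [hgt_mid]
    have h2 := (lev_bounds k (x k)).1
    have h3 : ((i : ℕ) : ℝ) + 1 ≤ ((k : ℕ) : ℝ) := cast_lt (by omega)
    linarith
  · subst h
    rw [hgt_top]
    have h3 : ((i : ℕ) : ℝ) + 1 ≤ (n : ℝ) := cast_lt hi
    linarith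

lemma hgt_nonneg (x : Fin n → Bool) {j : ℕ} (hj : j ≤ n + 1) : 0 ≤ hgt x j := by
  rcases cases_j hj with h | ⟨k, h⟩ | h
  · subst h; rw [hgt_zero]
  · subst h
    rw [hgt_mid]
    have h2 := (lev_bounds k (x k)).1
    have : (0 : ℝ) ≤ ((k : ℕ) : ℝ) := Nat.cast_nonneg _
    linarith
  · subst h; rw [hgt_top]; positivity

lemma hgt_le (x : Fin n → Bool) {j : ℕ} (hj : j ≤ n + 1) : hgt x j ≤ 2 * n + 1 := by
  rcases cases_j hj with h | ⟨k, h⟩ | h
  · subst h; rw [hgt_zero]; positivity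
  · subst h
    rw [hgt_mid]
    have h2 := (lev_bounds k (x k)).2
    have h3 : ((k : ℕ) : ℝ) + 1 ≤ (n : ℝ) := cast_lt k.2
    linarith
  · subst h; rw [hgt_top]

lemma hgt_strict (x : Fin n → Bool) {j : ℕ} (hj : j ≤ n) : hgt x j < hgt x (j + 1) := by
  rcases Nat.lt_or_ge j n with h | h
  · have h1 := hgt_mid x ⟨j, h⟩
    simp only at h1
    rw [h1]
    exact hgt_lt x ⟨j, h⟩ (by simp)
  · have hj' : j = n := by omega
    subst hj'
    rcases Nat.eq_zero_or_pos j with h0 | h0
    · subst h0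
      rw [hgt_zero, hgt_top]
      positivity
    · have h1 := hgt_mid x ⟨j - 1, by omega⟩
      simp only [Nat.sub_add_cancel h0] at h1
      rw [h1]
      exact lt_hgt x le_rfl ⟨j - 1, by omega⟩ (by simp; omega)

lemma off_lo (x : Fin n → Bool) {j : ℕ} (i : Fin n) (h : j ≤ i + 1) : off x j i = 0 := by
  unfold off
  apply max_eq_left
  rcases Nat.lt_or_ge j (i + 1) with h1 | h1
  · linarith [hgt_lt x i h1]
  · have : j = i + 1 := by omega
    subst this
    rw [hgt_mid]
    simp

lemma off_up (x : Fin n → Bool) {j : ℕ} (hj : j ≤ n + 1) (i : Fin n) (h : i + 1 ≤ j) :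
    off x j i = hgt x j - lev i (x i) := by
  unfold off
  apply max_eq_right
  rcases Nat.lt_or_ge (i + 1) j with h1 | h1
  · linarith [lt_hgt x hj i h1]
  · have : j = i + 1 := by omega
    subst this
    rw [hgt_mid]
    simp

lemma off_nonneg (x : Fin n → Bool) (j : ℕ) (i : Fin n) : 0 ≤ off x j i := le_max_left _ _

lemma off_le (x : Fin n → Bool) {j : ℕ} (hj : j ≤ n + 1) (i : Fin n) : off x j i ≤ 2 * n := by
  unfold off
  apply max_le (by positivity)
  have h1 := hgt_le x hj
  have h2 := (lev_bounds i (x i)).1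
  have : (0 : ℝ) ≤ ((i : ℕ) : ℝ) := Nat.cast_nonneg _
  linarith

lemma dst_vt (x : Fin n → Bool) (j : ℕ) (i : Fin n) : dst n (x i) ((vt x j).1 i) = off x j i :=
  dst_pos _ _ _

lemma dst_vt_ne (x : Fin n → Bool) {j : ℕ} (hj : j ≤ n + 1) (i : Fin n) {b : Bool} (hb : x i ≠ b) :
    2 * (n : ℝ) + 4 ≤ dst n b ((vt x j).1 i) := by
  have : b = !(x i) := by cases b <;> cases h : x i <;> simp_all
  rw [this, dst_not, dst_vt]
  linarith [off_le x hj i]

lemma vt_mem (x : Fin n → Bool) {j : ℕ} (hj : j ≤ n + 1) : vt x j ∈ P n := by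
  rw [mem_P]
  refine ⟨hgt_nonneg x hj, hgt_le x hj, fun i b => ?_⟩
  by_cases hb : x i = b
  · subst hb
    rw [dst_vt]
    exact ⟨off_nonneg x j i, le_max_right _ _⟩
  · have h1 := dst_vt_ne x hj i hb
    have h2 := hgt_le x hj
    have h3 := (lev_bounds i b).1
    have h4 : (0 : ℝ) ≤ ((i : ℕ) : ℝ) := Nat.cast_nonneg _
    have h5 : (0 : ℝ) ≤ n := Nat.cast_nonneg _
    have h6 : (vt x j).2 = hgt x j := rfl
    rw [h6]
    constructor <;> linarith

/-- the inequalities which are tight at a vertex -/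
def Tight (x : Fin n → Bool) (j : ℕ) : Con n → Prop
  | Sum.inl false => j = 0
  | Sum.inl true => j = n + 1
  | Sum.inr (i, b, false) => x i = b ∧ j ≤ i + 1
  | Sum.inr (i, b, true) => x i = b ∧ i + 1 ≤ j

lemma hgt_eq_zero (x : Fin n → Bool) {j : ℕ} (hj : j ≤ n + 1) : hgt x j = 0 ↔ j = 0 := by
  constructor
  · intro h
    rcases cases_j hj with h1 | ⟨k, h1⟩ | h1
    · exact h1
    · subst h1
      rw [hgt_mid] at h
      have h2 := (lev_bounds k (x k)).1
      have : (0 : ℝ) ≤ ((k : ℕ) : ℝ) := Nat.cast_nonneg _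
      linarith
    · subst h1
      rw [hgt_top] at h
      have : (0 : ℝ) ≤ (n : ℝ) := Nat.cast_nonneg _
      linarith
  · rintro rfl
    exact hgt_zero x

lemma hgt_eq_top (x : Fin n → Bool) {j : ℕ} (hj : j ≤ n + 1) :
    hgt x j = 2 * n + 1 ↔ j = n + 1 := by
  constructor
  · intro h
    by_contra hne
    have h1 : j ≤ n := by omega
    have h2 := hgt_strict x h1
    have h3 := hgt_le x (j := j + 1) (by omega)
    linarith
  · rintro rfl
    exact hgt_top x

lemma slack_vt (x : Fin n → Bool) {j : ℕ} (hj : j ≤ n + 1) (c : Con n) :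
    slack c (vt x j) = 0 ↔ Tight x j c := by
  rcases c with (_ | _) | ⟨i, b, (_ | _)⟩
  · rw [slack_bot]
    exact hgt_eq_zero x hj
  · rw [slack_top]
    show 2 * (n : ℝ) + 1 - hgt x j = 0 ↔ j = n + 1
    rw [← hgt_eq_top x hj]
    constructor <;> intro h <;> linarith
  · rw [slack_lo]
    show _ ↔ x i = b ∧ j ≤ i + 1
    by_cases hb : x i = b
    · subst hb
      rw [dst_vt]
      constructor
      · intro h
        refine ⟨rfl, ?_⟩
        by_contra hcon
        push Not at hcon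
        rw [off_up x hj i hcon.le] at h
        linarith [lt_hgt x hj i hcon]
      · rintro ⟨-, h⟩
        exact off_lo x i h
    · have h1 := dst_vt_ne x hj i hb
      have h5 : (0 : ℝ) ≤ n := Nat.cast_nonneg _
      constructor
      · intro h; linarith
      · rintro ⟨h, -⟩; exact absurd h hb
  · rw [slack_up]
    show _ ↔ x i = b ∧ i + 1 ≤ j
    have h6 : (vt x j).2 = hgt x j := rfl
    rw [h6]
    by_cases hb : x i = b
    · subst hb
      rw [dst_vt]
      constructor
      · intro h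
        refine ⟨rfl, ?_⟩
        by_contra hcon
        push Not at hcon
        rw [off_lo x i hcon.le] at h
        linarith [hgt_lt x i hcon]
      · rintro ⟨-, h⟩
        rw [off_up x hj i h]
        ring
    · have h1 := dst_vt_ne x hj i hb
      have h5 : (0 : ℝ) ≤ n := Nat.cast_nonneg _
      have h2 := hgt_le x hj
      have h3 := (lev_bounds i b).1
      have h4 : (0 : ℝ) ≤ ((i : ℕ) : ℝ) := Nat.cast_nonneg _
      constructor
      · intro h; linarith
      · rintro ⟨h, -⟩; exact absurd h hb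

lemma vt_inj {x y : Fin n → Bool} {j k : ℕ} (hj : j ≤ n + 1) (hk : k ≤ n + 1)
    (h : vt x j = vt y k) : x = y ∧ j = k := by
  have hxy : x = y := by
    funext i
    by_contra hne
    have h1 := dst_vt_ne x hj i hne
    rw [h, dst_vt] at h1
    linarith [off_le y hk i]
  subst hxy
  refine ⟨rfl, ?_⟩
  have h2 : hgt x j = hgt x k := congrArg Prod.snd h
  have mono : ∀ a b : ℕ, a < b → b ≤ n + 1 → hgt x a < hgt x b := by
    intro a b hab
    induction b, hab using Nat.le_induction with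
    | base => intro h; exact hgt_strict x (by omega)
    | succ b hb ih => intro h; exact (ih (by omega)).trans (hgt_strict x (by omega))
  rcases Nat.lt_trichotomy j k with h3 | h3 | h3
  · exact absurd h2 (mono j k h3 hk).ne
  · exact h3
  · exact absurd h2.symm (mono k j h3 hj).ne

end Pool.Agent.Q218.Known
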