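import Pool.Agent.Q218.Known.Edges
set_option autoImplicit false
set_option linter.unusedSectionVars false

/-!
# The objective function on the vertices of the polytope

Given an objective function `f` of the `n`-cube with maximum `w`, the vertices `(x, 0)` of the bottom
facet get essentially the values of `f`; the vertical edge at `(x, 0)` is improving only if `x = w`.
-/

namespace Pool.Agent.Q218.Known

open Finset Pool.Agent.TH70.AR

variable {n : ℕ}

/-- the best vertex on level `j`: the coordinates `i` with `i + 1 < j` are already `true` -/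
def best (w : Fin n → Bool) (j : ℕ) (i : Fin n) : Bool := if (i : ℕ) + 1 < j then true else w i

/-- the vertices of level `j ≥ 1` on the way up -/
def Main (w x : Fin n → Bool) (j : ℕ) : Prop :=
  1 ≤ j ∧ ∀ i : Fin n, x i = best w j i ∨ ((i : ℕ) + 2 = j ∧ x i = w i)

/-- the number of good coordinates -/
def good (w x : Fin n → Bool) (j : ℕ) : ℕ :=
  ∑ i : Fin n, (if (i : ℕ) + 1 = j then 0 else if (i : ℕ) + 2 = j then 1 else 2) *
    (if x i = best w j i then 1 else 0)

lemma good_le (w x : Fin n → Bool) (j : ℕ) : good w x j ≤ 2 * n := by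
  calc good w x j ≤ ∑ _i : Fin n, 2 := by
        apply Finset.sum_le_sum
        intro i _
        split_ifs <;> simp
    _ = 2 * n := by simp [mul_comm]

/-- making a coordinate good -/
lemma good_flip (w x : Fin n → Bool) (j : ℕ) (i : Fin n) (hi : (i : ℕ) + 1 ≠ j)
    (hx : x i ≠ best w j i) : good w x j < good w (flip x i) j := by
  apply Finset.sum_lt_sum
  · intro k _
    by_cases hk : k = i
    · subst hk
      rw [if_neg hx]
      simp
    · rw [flip_of_ne x hk]
  · refine ⟨i, mem_univ _, ?_⟩
    rw [if_neg hx, if_neg hi]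
    have : flip x i i = best w j i := by
      rw [flip_self]
      cases h1 : x i <;> cases h2 : best w j i <;> simp_all
    rw [if_pos this]
    split_ifs <;> simp

open Classical in
/-- the rank of a vertex of level `j ≥ 1` -/
noncomputable def rk (f : (Fin n → Bool) → ℕ) (w x : Fin n → Bool) (j : ℕ) : ℕ :=
  if Main w x j then (2 * n + 1) * (n + 2) + f w + 1 + 2 * j + (if x = best w j then 1 else 0)
  else (2 * n + 1) * (n + 2 - j) + good w x j

/-- the number of vertices of the cube -/
def NN (n : ℕ) : ℕ := Fintype.card (Fin n → Bool)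

/-- the number of a vertex of the cube -/
noncomputable def ee (x : Fin n → Bool) : ℕ := Fintype.equivFin (Fin n → Bool) x

lemma ee_lt (x : Fin n → Bool) : ee x < NN n := (Fintype.equivFin (Fin n → Bool) x).2

lemma ee_inj {x y : Fin n → Bool} (h : ee x = ee y) : x = y :=
  (Fintype.equivFin (Fin n → Bool)).injective (Fin.ext h)

/-- the constant added to the values of `f` -/
def CC (n : ℕ) : ℕ := (2 * n + 1) * (n + 2) * NN n

/-- the value of the vertex `(x, j)` -/
noncomputable def val (f : (Fin n → Bool) → ℕ) (w x : Fin n → Bool) (j : ℕ) : ℕ :=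
  if j = 0 then CC n + f x else rk f w x j * NN n + ee x

lemma val_zero (f : (Fin n → Bool) → ℕ) (w x : Fin n → Bool) : val f w x 0 = CC n + f x := by
  simp [val]

lemma val_pos (f : (Fin n → Bool) → ℕ) (w x : Fin n → Bool) {j : ℕ} (hj : 1 ≤ j) :
    val f w x j = rk f w x j * NN n + ee x := by
  rw [val, if_neg (by omega)]

lemma NN_pos (n : ℕ) : 0 < NN n := Fintype.card_pos

lemma lex_lt {a b c d N : ℕ} (h : a < b) (hc : c < N) : a * N + c < b * N + d := by
  have : (a + 1) * N ≤ b * N := Nat.mul_le_mul_right _ h
  nlinarith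

lemma lex_eq {a b c d N : ℕ} (hc : c < N) (hd : d < N) (h : a * N + c = b * N + d) :
    a = b ∧ c = d := by
  rcases Nat.lt_trichotomy a b with h1 | h1 | h1
  · exact absurd h (lex_lt h1 hc).ne
  · subst h1; exact ⟨rfl, by omega⟩
  · exact absurd h (lex_lt h1 hd).ne'

lemma rk_main {f : (Fin n → Bool) → ℕ} {w x : Fin n → Bool} {j : ℕ} (h : Main w x j) :
    rk f w x j = (2 * n + 1) * (n + 2) + f w + 1 + 2 * j + (if x = best w j then 1 else 0) := by
  rw [rk, if_pos h]

lemma rk_non {f : (Fin n → Bool) → ℕ} {w x : Fin n → Bool} {j : ℕ} (h : ¬ Main w x j) :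
    rk f w x j = (2 * n + 1) * (n + 2 - j) + good w x j := by
  rw [rk, if_neg h]

lemma rk_non_lt {f : (Fin n → Bool) → ℕ} {w x : Fin n → Bool} {j : ℕ} (h : ¬ Main w x j)
    (hj : 1 ≤ j) : rk f w x j < (2 * n + 1) * (n + 2) := by
  rw [rk_non h]
  have h1 := good_le w x j
  have h2 : (2 * n + 1) * (n + 2 - j) ≤ (2 * n + 1) * (n + 1) := Nat.mul_le_mul_left _ (by omega)
  have h3 : (2 * n + 1) * (n + 2) = (2 * n + 1) * (n + 1) + (2 * n + 1) := by ring
  omega

lemma val_non_lt {f : (Fin n → Bool) → ℕ} {w x : Fin n → Bool} {j : ℕ} (h : ¬ Main w x j)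
    (hj : 1 ≤ j) : val f w x j < CC n := by
  rw [val_pos f w x hj, CC]
  have := lex_lt (d := 0) (rk_non_lt (f := f) h hj) (ee_lt x)
  simpa using this

lemma lt_val_main {f : (Fin n → Bool) → ℕ} {w x : Fin n → Bool} {j : ℕ} (h : Main w x j) :
    CC n + f w < val f w x j := by
  rw [val_pos f w x h.1, CC, rk_main h]
  have h1 := NN_pos n
  have h2 : (2 * n + 1) * (n + 2) + f w + 1 ≤
      (2 * n + 1) * (n + 2) + f w + 1 + 2 * j + (if x = best w j then 1 else 0) := by omega
  have h3 := Nat.mul_le_mul_right (NN n) h2
  have h4 : ((2 * n + 1) * (n + 2) + f w + 1) * NN n =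
      (2 * n + 1) * (n + 2) * NN n + (f w + 1) * NN n := by ring
  have h5 : f w + 1 ≤ (f w + 1) * NN n := Nat.le_mul_of_pos_right _ h1
  omega

/-- different vertices have different values -/
lemma val_inj {f : (Fin n → Bool) → ℕ} (hf : Function.Injective f) {w : Fin n → Bool}
    (hw : ∀ x, f x ≤ f w) {x y : Fin n → Bool} {j k : ℕ} (hj : j ≤ n + 1) (hk : k ≤ n + 1)
    (h : val f w x j = val f w y k) : x = y ∧ j = k := by
  have key : ∀ {x y : Fin n → Bool} {k : ℕ}, 1 ≤ k → val f w x 0 = val f w y k → False := by
    intro x y k hk1 h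
    rw [val_zero] at h
    by_cases hm : Main w y k
    · have h1 := lt_val_main (f := f) hm
      have h2 := hw x
      omega
    · have h1 := val_non_lt (f := f) hm hk1
      omega
  rcases Nat.eq_zero_or_pos j with hj0 | hj0
  · subst hj0
    rcases Nat.eq_zero_or_pos k with hk0 | hk0
    · subst hk0
      rw [val_zero, val_zero] at h
      exact ⟨hf (by omega), rfl⟩
    · exact (key hk0 h).elim
  · rcases Nat.eq_zero_or_pos k with hk0 | hk0
    · subst hk0
      exact (key hj0 h.symm).elim
    · rw [val_pos f w x hj0, val_pos f w y hk0] at h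
      obtain ⟨h1, h2⟩ := lex_eq (ee_lt x) (ee_lt y) h
      have hxy := ee_inj h2
      subst hxy
      refine ⟨rfl, ?_⟩
      by_cases hm : Main w x j
      · by_cases hm' : Main w x k
        · rw [rk_main hm, rk_main hm'] at h1
          split_ifs at h1 <;> omega
        · rw [rk_main hm] at h1
          have := rk_non_lt (f := f) hm' hk0
          omega
      · by_cases hm' : Main w x k
        · rw [rk_main hm'] at h1
          have := rk_non_lt (f := f) hm hj0
          omega
        · rw [rk_non hm, rk_non hm'] at h1
          have h3 := good_le w x j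
          have h4 := good_le w x k
          have h5 : n + 2 - j = n + 2 - k := by
            rcases Nat.lt_trichotomy (n + 2 - j) (n + 2 - k) with h6 | h6 | h6
            · have : (2 * n + 1) * (n + 2 - j + 1) ≤ (2 * n + 1) * (n + 2 - k) :=
                Nat.mul_le_mul_left _ h6
              have h7 : (2 * n + 1) * (n + 2 - j + 1) = (2 * n + 1) * (n + 2 - j) + (2 * n + 1) := by
                ring
              omega
            · exact h6
            · have : (2 * n + 1) * (n + 2 - k + 1) ≤ (2 * n + 1) * (n + 2 - j) :=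
                Nat.mul_le_mul_left _ h6
              have h7 : (2 * n + 1) * (n + 2 - k + 1) = (2 * n + 1) * (n + 2 - k) + (2 * n + 1) := by
                ring
              omega
          omega

/-- going down from a vertex which is not on the way -/
lemma val_down {f : (Fin n → Bool) → ℕ} {w x : Fin n → Bool} {j : ℕ} (hj : j ≤ n)
    (h : ¬ Main w x (j + 1)) : val f w x (j + 1) < val f w x j := by
  rcases Nat.eq_zero_or_pos j with h0 | h0
  · subst h0
    rw [val_zero]
    have := val_non_lt (f := f) h (by omega)
    omega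
  · rw [val_pos f w x (by omega), val_pos f w x h0]
    apply lex_lt _ (ee_lt x)
    by_cases hm : Main w x j
    · rw [rk_main hm]
      have := rk_non_lt (f := f) h (by omega)
      omega
    · rw [rk_non h, rk_non hm]
      have h1 := good_le w x (j + 1)
      have h2 : n + 2 - j = (n + 2 - (j + 1)) + 1 := by omega
      have h3 : (2 * n + 1) * (n + 2 - j) =
          (2 * n + 1) * (n + 2 - (j + 1)) + (2 * n + 1) := by rw [h2]; ring
      omega

/-- the best vertex of a level is on the way also on the next level -/
lemma main_best (w : Fin n → Bool) {j : ℕ} (hj : 1 ≤ j) : Main w (best w j) j :=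
  ⟨hj, fun _ => Or.inl rfl⟩

lemma main_next (w : Fin n → Bool) (j : ℕ) : Main w (best w j) (j + 1) := by
  refine ⟨by omega, fun i => ?_⟩
  unfold best
  by_cases h1 : (i : ℕ) + 1 < j
  · left
    rw [if_pos h1, if_pos (by omega)]
  · rw [if_neg h1]
    by_cases h2 : (i : ℕ) + 1 < j + 1
    · right
      exact ⟨by omega, rfl⟩
    · left
      rw [if_neg h2]

/-- going up from the best vertex -/
lemma val_up {f : (Fin n → Bool) → ℕ} {w : Fin n → Bool} {j : ℕ} (hj : 1 ≤ j) :
    val f w (best w j) j < val f w (best w j) (j + 1) := by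
  rw [val_pos f w _ hj, val_pos f w _ (by omega)]
  apply lex_lt _ (ee_lt _)
  rw [rk_main (main_best w hj), rk_main (main_next w j)]
  split_ifs <;> omega

/-- going up from a vertex which is not on the way to one which is on the way -/
lemma val_enter {f : (Fin n → Bool) → ℕ} {w : Fin n → Bool} (hw : ∀ x, f x ≤ f w)
    {x : Fin n → Bool} {j : ℕ} (h : ¬ Main w x j) (h' : Main w x (j + 1)) :
    val f w x j < val f w x (j + 1) := by
  have h1 := lt_val_main (f := f) h'
  rcases Nat.eq_zero_or_pos j with h0 | h0
  · subst h0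
    rw [val_zero]
    have := hw x
    omega
  · have := val_non_lt (f := f) h h0
    omega

/-- making a coordinate good is improving -/
lemma val_flip {f : (Fin n → Bool) → ℕ} {w x : Fin n → Bool} {j : ℕ} (hj : 1 ≤ j) (i : Fin n)
    (hi : (i : ℕ) + 1 ≠ j) (hx : x i ≠ best w j i) : val f w x j < val f w (flip x i) j := by
  rw [val_pos f w _ hj, val_pos f w _ hj]
  apply lex_lt _ (ee_lt _)
  have hfl : flip x i i = best w j i := by
    rw [flip_self]
    cases h1 : x i <;> cases h2 : best w j i <;> simp_all
  by_cases hm : Main w x j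
  · -- then the flipped vertex is the best one
    have h1 : flip x i = best w j := by
      funext k
      by_cases hk : k = i
      · subst hk; exact hfl
      · rw [flip_of_ne x hk]
        rcases hm.2 k with h2 | ⟨h2, -⟩
        · exact h2
        · rcases hm.2 i with h3 | ⟨h3, -⟩
          · exact absurd h3 hx
          · exact absurd (Fin.ext (by omega)) hk
    have h2 : x ≠ best w j := fun h => hx (congrFun h i)
    rw [rk_main hm, h1, rk_main (main_best w hj), if_neg h2, if_pos rfl]
    omega
  · by_cases hm' : Main w (flip x i) j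
    · rw [rk_main hm']
      have := rk_non_lt (f := f) hm hj
      omega
    · rw [rk_non hm, rk_non hm']
      have := good_flip w x j i hi hx
      omega

/-! ### One local maximum on every face -/

/-- the labels of the vertices on a face -/
def InF (J : Set (Con n)) (x : Fin n → Bool) (j : ℕ) : Prop := j ≤ n + 1 ∧ ∀ c ∈ J, Tight x j c

/-- local maxima on a face -/
def LM (f : (Fin n → Bool) → ℕ) (w : Fin n → Bool) (J : Set (Con n)) (x : Fin n → Bool) (j : ℕ) :
    Prop :=
  InF J x j ∧ ∀ y k, InF J y k → CAdj x j y k → val f w y k < val f w x j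

lemma InF.between {J : Set (Con n)} {x y : Fin n → Bool} {j k l : ℕ} (h : InF J x j)
    (h' : InF J y k) (h1 : min j k ≤ l) (h2 : l ≤ max j k) : InF J x l := by
  have hj := h.1
  have hk := h'.1
  refine ⟨by omega, ?_⟩
  intro c hc
  have ht := h.2 c hc
  have ht' := h'.2 c hc
  rcases c with (_ | _) | ⟨i, b, (_ | _)⟩
  · have e1 : j = 0 := ht
    have e2 : k = 0 := ht'
    show l = 0
    omega
  · have e1 : j = n + 1 := ht
    have e2 : k = n + 1 := ht'
    show l = n + 1
    omega
  · obtain ⟨e1, e2⟩ : x i = b ∧ j ≤ i + 1 := ht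
    obtain ⟨e3, e4⟩ : y i = b ∧ k ≤ i + 1 := ht'
    exact ⟨e1, by omega⟩
  · obtain ⟨e1, e2⟩ : x i = b ∧ i + 1 ≤ j := ht
    obtain ⟨e3, e4⟩ : y i = b ∧ i + 1 ≤ k := ht'
    exact ⟨e1, by omega⟩

/-- no inequality in `J` concerns the coordinate `i` -/
def Free (J : Set (Con n)) (i : Fin n) : Prop := ∀ b c, (Sum.inr (i, b, c) : Con n) ∉ J

lemma InF.eq_of_not_free {J : Set (Con n)} {x y : Fin n → Bool} {j k : ℕ} (h : InF J x j)
    (h' : InF J y k) {i : Fin n} (hi : ¬ Free J i) : x i = y i := by
  unfold Free at hi
  push Not at hi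
  obtain ⟨b, c, hc⟩ := hi
  have ht := h.2 _ hc
  have ht' := h'.2 _ hc
  cases c
  · exact ht.1.trans ht'.1.symm
  · exact ht.1.trans ht'.1.symm

lemma InF.flip {J : Set (Con n)} {x : Fin n → Bool} {j : ℕ} (h : InF J x j) {i : Fin n}
    (hi : Free J i) : InF J (flip x i) j := by
  refine ⟨h.1, ?_⟩
  intro c hc
  have ht := h.2 c hc
  rcases c with (_ | _) | ⟨k, b, (_ | _)⟩
  · exact ht
  · exact ht
  · have hk : k ≠ i := by rintro rfl; exact hi _ _ hc
    exact ⟨by rw [flip_of_ne x hk]; exact ht.1, ht.2⟩
  · have hk : k ≠ i := by rintro rfl; exact hi _ _ hc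
    exact ⟨by rw [flip_of_ne x hk]; exact ht.1, ht.2⟩

/-- if the coordinate of the level is free then the level is in the interior -/
lemma InF.mid {J : Set (Con n)} {x : Fin n → Bool} {j : ℕ} (h : InF J x j) {i : Fin n}
    (hi : Free J i) (hij : (i : ℕ) + 1 = j) : InF J x (j - 1) := by
  have h2 := i.2
  refine ⟨by omega, ?_⟩
  intro c hc
  have ht := h.2 c hc
  rcases c with (_ | _) | ⟨k, b, (_ | _)⟩
  · have e1 : j = 0 := ht
    omega
  · have e1 : j = n + 1 := ht
    omega
  · obtain ⟨e1, e2⟩ : x k = b ∧ j ≤ k + 1 := ht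
    exact ⟨e1, by omega⟩
  · obtain ⟨e1, e2⟩ : x k = b ∧ k + 1 ≤ j := ht
    have hk : k ≠ i := by rintro rfl; exact hi _ _ hc
    have hk' : (k : ℕ) ≠ i := fun h => hk (Fin.ext h)
    exact ⟨e1, by omega⟩

variable {f : (Fin n → Bool) → ℕ} {w : Fin n → Bool} {J : Set (Con n)}

/-- a local maximum which is not on the lowest level of the face is on the way -/
lemma LM.main {x : Fin n → Bool} {j : ℕ} (h : LM f w J x j) {y : Fin n → Bool} {k : ℕ}
    (hy : InF J y k) (hk : k < j) : Main w x j := by
  by_contra hm
  obtain ⟨j', rfl⟩ : ∃ j', j = j' + 1 := ⟨j - 1, by omega⟩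
  have h1 : InF J x j' := h.1.between hy (by omega) (by omega)
  have h2 := h.2 x j' h1 (Or.inl ⟨rfl, Or.inr rfl⟩)
  have h3 := val_down (f := f) (w := w) (x := x) (j := j') (by have := h.1.1; omega) hm
  omega

/-- free coordinates of a local maximum -/
lemma LM.free {x : Fin n → Bool} {j : ℕ} (h : LM f w J x j) (hj : 1 ≤ j) {i : Fin n}
    (hi : Free J i) (hij : (i : ℕ) + 1 ≠ j) : x i = best w j i := by
  by_contra hne
  have h1 := h.2 _ j (h.1.flip hi) (Or.inr ⟨rfl, i, hij, rfl⟩)
  have h2 := val_flip (f := f) hj i hij hne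
  omega

/-- a local maximum on the way which is not the best vertex of its level -/
lemma LM.second {x : Fin n → Bool} {j : ℕ} (h : LM f w J x j) (hm : Main w x j) {i : Fin n}
    (hx : x i ≠ best w j i) : (i : ℕ) + 2 = j ∧ x i = false ∧ ¬ Free J i := by
  rcases hm.2 i with h1 | ⟨h1, h2⟩
  · exact absurd h1 hx
  · have h3 : best w j i = true := by rw [best, if_pos (by omega)]
    refine ⟨h1, ?_, fun hfree => hx (h.free hm.1 hfree (by omega))⟩
    rw [h3] at hx
    simpa using hx

theorem lm_unique (hf : AOF f) (hw : ∀ x, f x ≤ f w) (hinj : Function.Injective f)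
    {x y : Fin n → Bool} {j k : ℕ} (hx : LM f w J x j) (hy : LM f w J y k) : x = y ∧ j = k := by
  -- local maxima on the lowest level
  have hbot : ∀ {x y : Fin n → Bool}, InF J x 0 → InF J y 0 →
      (∀ i, Free J i → f (flip x i) < f x) → (∀ i, Free J i → f (flip y i) < f y) → x = y := by
    classical
    intro x y h1 h2 h3 h4
    obtain ⟨z, -, hz⟩ := hf (univ.filter fun i => Free J i) x
    have e1 := hz x ⟨fun _ _ => rfl, fun i hi => h3 i (mem_filter.1 hi).2⟩
    have e2 := hz y ⟨fun i hi => by
      have : ¬ Free J i := fun h => hi (mem_filter.2 ⟨mem_univ _, h⟩)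
      exact (h1.eq_of_not_free h2 this).symm, fun i hi => h4 i (mem_filter.1 hi).2⟩
    rw [e1, e2]
  have hlm : ∀ {x : Fin n → Bool}, LM f w J x 0 → ∀ i, Free J i → f (flip x i) < f x := by
    intro x h i hi
    have h1 := h.2 _ 0 (h.1.flip hi) (Or.inr ⟨rfl, i, by omega, rfl⟩)
    rw [val_zero, val_zero] at h1
    omega
  -- local maxima on the same level
  have hsame : ∀ {x y : Fin n → Bool} {j : ℕ}, LM f w J x j → LM f w J y j → x = y := by
    intro x y j hx hy
    rcases Nat.eq_zero_or_pos j with h0 | h0
    · subst h0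
      exact hbot hx.1 hy.1 (hlm hx) (hlm hy)
    · funext i
      by_contra hne
      have hfree : Free J i := by
        by_contra hcon
        exact hne (hx.1.eq_of_not_free hy.1 hcon)
      by_cases hij : (i : ℕ) + 1 = j
      · have h1 := hx.1.mid hfree hij
        have h2 := hx.main h1 (by omega)
        have h3 := hy.main h1 (by omega)
        rcases h2.2 i with h4 | ⟨h4, -⟩
        · rcases h3.2 i with h5 | ⟨h5, -⟩
          · exact hne (h4.trans h5.symm)
          · omega
        · omega
      · exact hne ((hx.free h0 hfree hij).trans (hy.free h0 hfree hij).symm)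
  -- local maxima on different levels
  have hdiff : ∀ {x y : Fin n → Bool} {j k : ℕ}, LM f w J x j → LM f w J y k → j < k → False := by
    intro x y j k hx hy hjk
    have hmy : Main w y k := hy.main hx.1 hjk
    have hup : InF J x (j + 1) := hx.1.between hy.1 (by omega) (by omega)
    have hadj : CAdj x j x (j + 1) := Or.inl ⟨rfl, Or.inl rfl⟩
    have hlow := hx.2 x (j + 1) hup hadj
    by_cases hmx : Main w x j
    · -- then `x` is not the best vertex of its level
      have hne : x ≠ best w j := by
        intro h
        rw [h] at hlow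
        have := val_up (f := f) (w := w) hmx.1
        omega
      obtain ⟨i, hi⟩ : ∃ i, x i ≠ best w j i := by
        by_contra hcon
        push Not at hcon
        exact hne (funext hcon)
      obtain ⟨h1, h2, h3⟩ := hx.second hmx hi
      have h4 := hx.1.eq_of_not_free hy.1 h3
      rcases hmy.2 i with h5 | ⟨h5, -⟩
      · rw [best, if_pos (by omega), ← h4, h2] at h5
        exact absurd h5 (by simp)
      · omega
    · -- then `x` is on the way on the next level
      apply absurd hlow
      push Not
      apply le_of_lt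
      apply val_enter hw hmx
      rcases Nat.eq_zero_or_pos j with h0 | h0
      · subst h0
        have hwF : InF J w 0 := by
          refine ⟨by omega, ?_⟩
          intro c hc
          have ht := hx.1.2 c hc
          have ht' := hy.1.2 c hc
          rcases c with (_ | _) | ⟨i, b, (_ | _)⟩
          · exact ht
          · exact ht
          · obtain ⟨e3, e4⟩ : y i = b ∧ k ≤ i + 1 := ht'
            refine ⟨?_, by omega⟩
            rcases hmy.2 i with h5 | ⟨h5, -⟩
            · rw [best, if_neg (by omega)] at h5
              rw [← h5, e3]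
            · omega
          · obtain ⟨e1, e2⟩ : x i = b ∧ (i : ℕ) + 1 ≤ 0 := ht
            omega
        have hxw : x = w := hbot hx.1 hwF (hlm hx) (fun i _ =>
          lt_of_le_of_ne (hw _) (fun h => flip_ne w i (hinj h)))
        rw [hxw]
        refine ⟨by omega, fun i => Or.inl ?_⟩
        rw [best, if_neg (by omega)]
      · refine ⟨by omega, fun i => ?_⟩
        by_cases hfree : Free J i
        · by_cases hij : (i : ℕ) + 1 = j
          · exact absurd (hx.main (hx.1.mid hfree hij) (by omega)) hmx
          · left
            rw [hx.free h0 hfree hij]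
            unfold best
            split_ifs with h1 h2 h2
            · rfl
            · omega
            · omega
            · rfl
        · have hxy := hx.1.eq_of_not_free hy.1 hfree
          rw [hxy]
          by_cases hij : (i : ℕ) + 1 = j
          · rcases hmy.2 i with h5 | ⟨h5, h6⟩
            · left
              rw [h5, best, best, if_pos (by omega), if_pos (by omega)]
            · right
              exact ⟨by omega, h6⟩
          · left
            have hfree' := hfree
            unfold Free at hfree
            push Not at hfree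
            obtain ⟨b, c, hc⟩ := hfree
            have ht := hx.1.2 _ hc
            have ht' := hy.1.2 _ hc
            cases c
            · obtain ⟨e3, e4⟩ : y i = b ∧ k ≤ i + 1 := ht'
              rcases hmy.2 i with h5 | ⟨h5, -⟩
              · rw [h5, best, best, if_neg (by omega), if_neg (by omega)]
              · omega
            · obtain ⟨e3, e4⟩ : x i = b ∧ i + 1 ≤ j := ht
              rcases hmy.2 i with h5 | ⟨h5, -⟩
              · rw [h5, best, best, if_pos (by omega), if_pos (by omega)]
              · omega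
  rcases Nat.lt_trichotomy j k with h | h | h
  · exact (hdiff hx hy h).elim
  · subst h
    exact ⟨hsame hx hy, rfl⟩
  · exact (hdiff hy hx h).elim

end Pool.Agent.Q218.Known
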